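import Pool.Agent.H26.WFa.Lin

/-!
# WFa/Add: the degree is additive

PROOF. `(s - 1) ^ (m1 + m2) * G s = (s - 1) ^ m * G1 s * G2 s` for `Re s > 1`, both sides are
entire, so for all `s`; for `s ≠ 1` this says `F s = F1 s * F2 s`. Take `A` = maximum of the
three `A0` of `line_lower`; then on `Re s = -A`, with `L = ∑ lam`, `L1`, `L2`:
`c t ^ ((1 + 2A) L) ≤ ‖F‖ = ‖F1‖ ‖F2‖ ≤ C1 C2 t ^ ((1 + 2A)(L1 + L2))` and
`c1 c2 t ^ ((1 + 2A)(L1 + L2)) ≤ ‖F1‖ ‖F2‖ = ‖F‖ ≤ C t ^ ((1 + 2A) L)` for all large `t`, so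
`L = L1 + L2`.
-/

set_option autoImplicit false

namespace Pool.Agent.H26.WFa

open Complex Pool.Agent.H11.Selberg

private theorem ex_le {c C x y T : ℝ} (hc : 0 < c)
    (h : ∀ t : ℝ, T ≤ t → c * t ^ x ≤ C * t ^ y) : x ≤ y := by
  by_contra hlt
  push Not at hlt
  have h1 := (tendsto_rpow_atTop (sub_pos.2 hlt)).eventually_gt_atTop (C / c)
  obtain ⟨t, ht1, ht2, ht3⟩ := (h1.and ((Filter.eventually_ge_atTop T).and
    (Filter.eventually_gt_atTop (0 : ℝ)))).exists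
  have h2 := h t ht2
  have h3 : t ^ x = t ^ (x - y) * t ^ y := by rw [← Real.rpow_add ht3, sub_add_cancel]
  rw [h3, ← mul_assoc] at h2
  have h4 : c * t ^ (x - y) ≤ C := le_of_mul_le_mul_right h2 (Real.rpow_pos_of_pos ht3 y)
  rw [div_lt_iff₀ hc] at ht1
  linarith [mul_comm c (t ^ (x - y))]

private theorem fac_all {a a1 a2 : ℕ → ℂ} {F G F1 G1 F2 G2 : ℂ → ℂ} {m m1 m2 : ℕ}
    {Q Q1 Q2 : ℝ} {r r1 r2 : ℕ} {lam : Fin r → ℝ} {lam1 : Fin r1 → ℝ} {lam2 : Fin r2 → ℝ}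
    {mu : Fin r → ℂ} {mu1 : Fin r1 → ℂ} {mu2 : Fin r2 → ℂ} {ε ε1 ε2 : ℂ}
    (h : Dat a F G m Q lam mu ε) (h1 : Dat a1 F1 G1 m1 Q1 lam1 mu1 ε1)
    (h2 : Dat a2 F2 G2 m2 Q2 lam2 mu2 ε2)
    (hF : ∀ s : ℂ, 1 < s.re → F s = F1 s * F2 s) (s : ℂ) (hs : s ≠ 1) :
    F s = F1 s * F2 s := by
  have e1 : Differentiable ℂ fun s : ℂ => (s - 1) ^ (m1 + m2) * G s :=
    ((differentiable_id.sub_const 1).pow _).mul h.diff
  have e2 : Differentiable ℂ fun s : ℂ => (s - 1) ^ m * (G1 s * G2 s) :=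
    ((differentiable_id.sub_const 1).pow _).mul (h1.diff.mul h2.diff)
  have e3 : (fun s : ℂ => (s - 1) ^ (m1 + m2) * G s) =
      fun s : ℂ => (s - 1) ^ m * (G1 s * G2 s) := by
    refine AnalyticOnNhd.eq_of_eventuallyEq (z₀ := 2) (fun z _ => e1.analyticAt z)
      (fun z _ => e2.analyticAt z) ?_
    have h3 : ∀ᶠ z : ℂ in nhds 2, 1 < z.re := by
      have h4 : IsOpen {z : ℂ | 1 < z.re} := isOpen_lt continuous_const Complex.continuous_re
      exact h4.mem_nhds (by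
        show 1 < (2 : ℂ).re
        norm_num)
    filter_upwards [h3] with z hz
    have hz1 : z ≠ 1 := fun h5 => by
      rw [h5, Complex.one_re] at hz
      exact lt_irrefl _ hz
    rw [h.GF z hz1, h1.GF z hz1, h2.GF z hz1, hF z hz]
    ring
  have h5 : (s - 1) ^ (m1 + m2) * G s = (s - 1) ^ m * (G1 s * G2 s) := congrFun e3 s
  rw [h.GF s hs, h1.GF s hs, h2.GF s hs] at h5
  have h6 : (s - 1) ^ (m + m1 + m2) ≠ 0 := pow_ne_zero _ (sub_ne_zero.2 hs)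
  refine mul_left_cancel₀ h6 ?_
  rw [pow_add, pow_add] at *
  linear_combination h5

theorem deg_add {a a1 a2 : ℕ → ℂ} {F G F1 G1 F2 G2 : ℂ → ℂ} {m m1 m2 : ℕ} {Q Q1 Q2 : ℝ}
    {r r1 r2 : ℕ} {lam : Fin r → ℝ} {lam1 : Fin r1 → ℝ} {lam2 : Fin r2 → ℝ}
    {mu : Fin r → ℂ} {mu1 : Fin r1 → ℂ} {mu2 : Fin r2 → ℂ} {ε ε1 ε2 : ℂ}
    (h : Dat a F G m Q lam mu ε) (h1 : Dat a1 F1 G1 m1 Q1 lam1 mu1 ε1)
    (h2 : Dat a2 F2 G2 m2 Q2 lam2 mu2 ε2)
    (hF : ∀ s : ℂ, 1 < s.re → F s = F1 s * F2 s) :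
    ∑ j, lam j = ∑ j, lam1 j + ∑ j, lam2 j := by
  obtain ⟨B, hB, hL⟩ := line_lower h
  obtain ⟨B1, hB1, hL1⟩ := line_lower h1
  obtain ⟨B2, hB2, hL2⟩ := line_lower h2
  obtain ⟨A, hA⟩ : ∃ A, A = max B (max B1 B2) := ⟨_, rfl⟩
  have hAB : B ≤ A := hA ▸ le_max_left _ _
  have hA1 : B1 ≤ A := hA ▸ (le_max_left _ _).trans (le_max_right _ _)
  have hA2 : B2 ≤ A := hA ▸ (le_max_right _ _).trans (le_max_right _ _)
  have hA0 : 0 < A := hB.trans_le hAB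
  obtain ⟨c, T, hc, hT, k⟩ := hL A hAB
  obtain ⟨c1, T1, hc1, hT1, k1⟩ := hL1 A hA1
  obtain ⟨c2, T2, hc2, hT2, k2⟩ := hL2 A hA2
  obtain ⟨C, S, hS, u⟩ := line_upper h A hA0
  obtain ⟨C1, S1, hS1, u1⟩ := line_upper h1 A hA0
  obtain ⟨C2, S2, hS2, u2⟩ := line_upper h2 A hA0
  have hne : ∀ t : ℝ, (-(A : ℂ) + t * I) ≠ 1 := fun t h3 => by
    have h4 := congrArg Complex.re h3
    simp at h4
    linarith
  have hnm : ∀ t : ℝ, ‖F (-A + t * I)‖ = ‖F1 (-A + t * I)‖ * ‖F2 (-A + t * I)‖ := fun t => by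
    rw [← norm_mul, fac_all h h1 h2 hF _ (hne t)]
  have hα : 0 < 1 + 2 * A := by linarith
  have x1 : (1 + 2 * A) * ∑ j, lam j ≤
      (1 + 2 * A) * ∑ j, lam1 j + (1 + 2 * A) * ∑ j, lam2 j := by
    refine ex_le (T := max T (max S1 S2)) (C := C1 * C2) hc fun t ht => ?_
    have ht0 : 0 < t := hT.trans_le ((le_max_left _ _).trans ht)
    have ha : |t| = t := abs_of_pos ht0
    have y := k t (by rw [ha]; exact (le_max_left _ _).trans ht)
    have y1 := u1 t (by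
      rw [ha]
      exact ((le_max_left _ _).trans (le_max_right _ _)).trans ht)
    have y2 := u2 t (by
      rw [ha]
      exact ((le_max_right _ _).trans (le_max_right _ _)).trans ht)
    rw [ha] at y y1 y2
    rw [hnm] at y
    refine y.trans ((mul_le_mul y1 y2 (norm_nonneg _) ((norm_nonneg _).trans y1)).trans
      (le_of_eq ?_))
    rw [Real.rpow_add ht0]
    ring
  have x2 : (1 + 2 * A) * ∑ j, lam1 j + (1 + 2 * A) * ∑ j, lam2 j ≤
      (1 + 2 * A) * ∑ j, lam j := by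
    refine ex_le (T := max S (max T1 T2)) (C := C) (mul_pos hc1 hc2) fun t ht => ?_
    have ht0 : 0 < t := hS.trans_le ((le_max_left _ _).trans ht)
    have ha : |t| = t := abs_of_pos ht0
    have y := u t (by rw [ha]; exact (le_max_left _ _).trans ht)
    have y1 := k1 t (by
      rw [ha]
      exact ((le_max_left _ _).trans (le_max_right _ _)).trans ht)
    have y2 := k2 t (by
      rw [ha]
      exact ((le_max_right _ _).trans (le_max_right _ _)).trans ht)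
    rw [ha] at y y1 y2
    rw [hnm] at y
    refine le_trans (le_of_eq ?_) ((mul_le_mul y1 y2 (by positivity)
      (norm_nonneg _)).trans y)
    rw [Real.rpow_add ht0]
    ring
  have x3 := le_antisymm x1 x2
  rw [← mul_add] at x3
  exact mul_left_cancel₀ hα.ne' x3

end Pool.Agent.H26.WFa
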