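import Pool.Agent.H26.WFa.Lg0
import Pool.Agent.H30.WD.FaDef

/-!
# WFa/Adz: `degree_zero` in the form of H30/WD/DegLow
-/

set_option autoImplicit false

namespace Pool.Agent.H26.WFa

open Complex Pool.Agent.H11.Selberg

theorem deg_zero_of (a : ℕ → ℂ) (F : ℂ → ℂ) (h : IsSelberg a F)
    (hd : Pool.Agent.H30.WD.HasFE F 0) (s : ℂ) (hs : 1 < s.re) : F s = 1 := by
  obtain ⟨Q, r, lam, mu, ε, hQ, hlam, hmu, hε, hfe, hd⟩ := hd
  obtain ⟨m, G, hG, hord, hGF⟩ := h.continuation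
  have hr : r = 0 := by
    by_contra hr
    have h1 : 0 < ∑ j, lam j :=
      Finset.sum_pos (fun j _ => hlam j) ⟨⟨0, Nat.pos_of_ne_zero hr⟩, Finset.mem_univ _⟩
    linarith
  subst hr
  exact degree_zero h ⟨h.one, h.summable, h.eq_LSeries, hG, hord, hGF, hQ, hlam, hmu, hε, hfe⟩ s hs

end Pool.Agent.H26.WFa
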