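import Pool.Agent.H26.WFa.Bmp

/-!
# WFa/BmI: Mellin inversion for the bump functions

`mel_diff`: `mellin_differentiableAt_of_isBigO_rpow` (support in `[3/4, N + 1/4]`, the function is
zero near `0` and near infinity; locally integrable because continuous).
`mel_inv`: Mathlib `mellin_inversion` (`MellinConvergent` from the compact support, vertical
integrability from `mel_bound` with `B = 0` and `B = 2` and continuity (`mel_diff`), continuity
of `wN N`).
-/

set_option autoImplicit false

namespace Pool.Agent.H26.WFa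

open Complex

private theorem wN_cont (N : ℕ) : Continuous (wN N) := by
  unfold wN psi
  exact Complex.continuous_ofReal.comp (bmp.continuous.comp (by fun_prop))

private theorem wN_top (N : ℕ) (a : ℝ) : wN N =O[Filter.atTop] (fun x : ℝ => x ^ (-a)) := by
  have h : wN N =ᶠ[Filter.atTop] fun _ => (0 : ℂ) := by
    filter_upwards [Filter.eventually_ge_atTop ((N : ℝ) + 1)] with x hx
    unfold wN
    rw [psi_supp _ (by rw [abs_of_nonneg (by linarith)]; linarith)]
    simp
  exact h.trans_isBigO (Asymptotics.isBigO_zero _ _)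

private theorem wN_bot (N : ℕ) (hN : 1 ≤ N) (b : ℝ) :
    wN N =O[nhdsWithin 0 (Set.Ioi 0)] (fun x : ℝ => x ^ (-b)) := by
  have h1 : (1 : ℝ) ≤ N := by exact_mod_cast hN
  have h : wN N =ᶠ[nhdsWithin 0 (Set.Ioi 0)] fun _ => (0 : ℂ) := by
    have h2 : ∀ᶠ x : ℝ in nhdsWithin 0 (Set.Ioi 0), x < 3 / 4 :=
      Filter.Eventually.filter_mono nhdsWithin_le_nhds (eventually_lt_nhds (by norm_num))
    filter_upwards [h2] with x hx
    unfold wN
    rw [psi_supp _ (by rw [abs_of_nonpos (by linarith)]; linarith)]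
    simp
  exact h.trans_isBigO (Asymptotics.isBigO_zero _ _)

private theorem wN_loc (N : ℕ) : MeasureTheory.LocallyIntegrableOn (wN N) (Set.Ioi 0) :=
  (wN_cont N).locallyIntegrable.locallyIntegrableOn _

theorem mel_diff (N : ℕ) (hN : 1 ≤ N) : Differentiable ℂ (mellin (wN N)) := by
  intro s
  exact mellin_differentiableAt_of_isBigO_rpow (wN_loc N) (wN_top N (s.re + 1)) (by linarith)
    (wN_bot N hN (s.re - 1)) (by linarith)

theorem mel_inv (N : ℕ) (hN : 1 ≤ N) (σ x : ℝ) (hx : 0 < x) :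
    mellinInv σ (mellin (wN N)) x = wN N x := by
  have hconv : MellinConvergent (wN N) (σ : ℂ) := by
    refine mellinConvergent_of_isBigO_rpow (wN_loc N) (wN_top N (σ + 1)) ?_ (wN_bot N hN (σ - 1)) ?_
    · simp
    · simp
  refine mellinInv_mellin_eq σ (wN N) hx hconv ?_ (wN_cont N).continuousAt
  obtain ⟨C0, hC0, h0⟩ := mel_bound 0 σ σ
  obtain ⟨C2, hC2, h2⟩ := mel_bound 2 σ σ
  unfold Complex.VerticalIntegrable
  have hcont : Continuous fun y : ℝ => mellin (wN N) ((σ : ℂ) + y * I) :=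
    (mel_diff N hN).continuous.comp (by fun_prop)
  have hint : MeasureTheory.Integrable fun y : ℝ =>
      (C0 * (N : ℝ) ^ (σ - 1 + (0 : ℕ)) + C2 * (N : ℝ) ^ (σ - 1 + (2 : ℕ))) * (1 + y ^ 2)⁻¹ :=
    integrable_inv_one_add_sq.const_mul _
  refine hint.mono' hcont.aestronglyMeasurable (Filter.Eventually.of_forall fun y => ?_)
  have hre : ((σ : ℂ) + y * I).re = σ := by simp
  have him : ((σ : ℂ) + y * I).im = y := by simp
  have e0 := h0 N hN ((σ : ℂ) + y * I) (by rw [hre]) (by rw [hre])
  have e2 := h2 N hN ((σ : ℂ) + y * I) (by rw [hre]) (by rw [hre])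
  rw [hre, him] at e0 e2
  have hp : (0 : ℝ) < 1 + y ^ 2 := by positivity
  have hsq : |y| ^ 2 = y ^ 2 := sq_abs y
  rw [hsq] at e2
  rw [pow_zero, mul_one] at e0
  rw [← div_eq_mul_inv, le_div_iff₀ hp]
  nlinarith [e0, e2]

end Pool.Agent.H26.WFa
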