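import Mathlib

/-!
# WFa/Bmp: a bump function around the integer N and its Mellin transform

`psi` is a smooth function on `ℝ` with `psi 0 = 1` and support in `[-1/4, 1/4]`
(Mathlib `ContDiffBump`). `wN N x = psi (x - N)`, `N ≥ 1`.

PROOF of `mel_bound`. Put `I_k(s) = ∫ x in (N - 1/2)..(N + 1/2), psi^(k) (x - N) * x ^ (s + k - 1)`
(`iteratedDeriv k psi`). `d/dx [psi^(k) (x - N) x ^ (s + k)] = psi^(k+1) (x - N) x ^ (s + k) +
(s + k) psi^(k) (x - N) x ^ (s + k - 1)` and the boundary terms vanish, so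
`(s + k) I_k(s) = - I_(k+1)(s)`, hence `‖I_0(s)‖ * |Im s| ^ B ≤ ‖I_B(s)‖ ≤
sup |psi^(B)| * sup_(N/2 ≤ x ≤ 3N/2) x ^ (Re s + B - 1) ≤ C N ^ (Re s + B - 1)`.
`mellin (wN N) s = I_0(s)` since the support of `wN N` is in `(N - 1/2, N + 1/2) ⊆ (0, ∞)`.
-/

set_option autoImplicit false

namespace Pool.Agent.H26.WFa

open Complex

noncomputable def bmp : ContDiffBump (0 : ℝ) where
  rIn := 1 / 8
  rOut := 1 / 4
  rIn_pos := by norm_num
  rIn_lt_rOut := by norm_num

noncomputable def psi (u : ℝ) : ℝ := bmp u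

noncomputable def wN (N : ℕ) (x : ℝ) : ℂ := (psi (x - N) : ℂ)

theorem psi_zero : psi 0 = 1 := by
  unfold psi
  apply bmp.one_of_mem_closedBall
  simp [bmp.rIn_pos.le]

theorem psi_supp (u : ℝ) (hu : 1 / 4 ≤ |u|) : psi u = 0 := by
  unfold psi
  apply bmp.zero_of_le_dist
  rw [Real.dist_eq, sub_zero]
  exact hu

theorem wN_nat (N n : ℕ) : wN N n = if n = N then 1 else 0 := by
  unfold wN
  split_ifs with h
  · rw [h, sub_self, psi_zero, Complex.ofReal_one]
  · rw [psi_supp, Complex.ofReal_zero]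
    have h1 : (n : ℤ) - N ≠ 0 := by omega
    have h2 : (1 : ℤ) ≤ |(n : ℤ) - N| := Int.one_le_abs h1
    have h3 : (1 : ℝ) ≤ |(n : ℝ) - N| := by exact_mod_cast h2
    linarith

theorem psi_smooth : ContDiff ℝ (⊤ : ℕ∞) psi := bmp.contDiff

/-- the `k`-th derivative -/
noncomputable def dpsi (k : ℕ) : ℝ → ℝ := iteratedDeriv k psi

theorem dpsi_hasDeriv (k : ℕ) (u : ℝ) : HasDerivAt (dpsi k) (dpsi (k + 1) u) u := by
  unfold dpsi
  rw [iteratedDeriv_succ]
  have h1 : Differentiable ℝ (iteratedDeriv k psi) :=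
    psi_smooth.differentiable_iteratedDeriv k (by exact_mod_cast ENat.natCast_lt_top k)
  exact (h1 u).hasDerivAt

theorem dpsi_cont (k : ℕ) : Continuous (dpsi k) :=
  continuous_iff_continuousAt.mpr (fun u => (dpsi_hasDeriv k u).continuousAt)

theorem dpsi_supp (k : ℕ) (u : ℝ) (hu : 1 / 4 < |u|) : dpsi k u = 0 := by
  have h1 : psi =ᶠ[nhds u] fun _ => 0 := by
    have : {x : ℝ | 1 / 4 < |x|} ∈ nhds u :=
      (isOpen_lt continuous_const continuous_abs).mem_nhds hu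
    filter_upwards [this] with x hx
    exact psi_supp x (le_of_lt hx)
  unfold dpsi
  rw [h1.iteratedDeriv_eq]
  simp

theorem dpsi_bound (k : ℕ) : ∃ M : ℝ, 0 ≤ M ∧ ∀ u : ℝ, |dpsi k u| ≤ M := by
  obtain ⟨M, hM⟩ := (isCompact_Icc (a := (-1 : ℝ)) (b := 1)).exists_bound_of_continuousOn
    (dpsi_cont k).continuousOn
  refine ⟨max M 0, le_max_right _ _, fun u => ?_⟩
  by_cases hu : |u| ≤ 1
  · exact (hM u (abs_le.mp hu)).trans (le_max_left _ _)
  · rw [dpsi_supp k u (by linarith), abs_zero]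
    exact le_max_right _ _

/-- the integrals `I_k` -/
noncomputable def Ik (N k : ℕ) (s : ℂ) : ℂ :=
  ∫ x in ((N : ℝ) - 1 / 2)..((N : ℝ) + 1 / 2), (dpsi k (x - N) : ℂ) * (x : ℂ) ^ (s + k - 1)

theorem Ik_step (N k : ℕ) (hN : 1 ≤ N) (s : ℂ) : (s + k) * Ik N k s = -Ik N (k + 1) s := by
  have hN1 : (1 : ℝ) ≤ N := by exact_mod_cast hN
  have hab : (N : ℝ) - 1 / 2 ≤ (N : ℝ) + 1 / 2 := by linarith
  have hpos : ∀ x ∈ Set.uIcc ((N : ℝ) - 1 / 2) ((N : ℝ) + 1 / 2), 0 < x := by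
    intro x hx
    rw [Set.uIcc_of_le hab] at hx
    linarith [hx.1]
  have hd : ∀ x ∈ Set.uIcc ((N : ℝ) - 1 / 2) ((N : ℝ) + 1 / 2),
      HasDerivAt (fun x : ℝ => (dpsi k (x - N) : ℂ) * (x : ℂ) ^ (s + k))
        ((dpsi (k + 1) (x - N) : ℂ) * (x : ℂ) ^ (s + k) +
          (dpsi k (x - N) : ℂ) * ((s + k) * (x : ℂ) ^ (s + k - 1))) x := by
    intro x hx
    have hx0 := hpos x hx
    have h1 : HasDerivAt (fun x : ℝ => (dpsi k (x - N) : ℂ)) (dpsi (k + 1) (x - N) : ℂ) x := by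
      have h2 := (dpsi_hasDeriv k (x - N)).comp_sub_const x (N : ℝ)
      exact h2.ofReal_comp
    have h3 : HasDerivAt (fun x : ℝ => (x : ℂ) ^ (s + k)) ((s + k) * (x : ℂ) ^ (s + k - 1)) x := by
      by_cases hs : s + k = 0
      · have : (fun x : ℝ => (x : ℂ) ^ (s + k)) = fun _ => 1 := by
          funext x; rw [hs, Complex.cpow_zero]
        rw [this, hs, zero_mul]
        exact hasDerivAt_const _ _
      · have h4 : HasDerivAt (fun z : ℂ => z ^ (s + k)) ((s + k) * (x : ℂ) ^ (s + k - 1)) (x : ℂ) := by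
          have := (hasDerivAt_id (x : ℂ)).cpow_const (c := s + k) (Or.inl (by simpa using hx0))
          simpa using this
        exact h4.comp_ofReal
    exact h1.mul h3
  have hc1 : ∀ (j : ℕ) (e : ℂ), ContinuousOn (fun x : ℝ => (dpsi j (x - N) : ℂ) * (x : ℂ) ^ e)
      (Set.uIcc ((N : ℝ) - 1 / 2) ((N : ℝ) + 1 / 2)) := by
    intro j e
    refine ContinuousOn.mul ?_ ?_
    · exact (Complex.continuous_ofReal.comp ((dpsi_cont j).comp (by fun_prop))).continuousOn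
    · intro x hx
      have hx0 := hpos x hx
      exact (Complex.continuousAt_ofReal_cpow_const _ _ (Or.inr hx0.ne')).continuousWithinAt
  have hi1 : IntervalIntegrable (fun x : ℝ => (dpsi (k + 1) (x - N) : ℂ) * (x : ℂ) ^ (s + k))
      MeasureTheory.volume ((N : ℝ) - 1 / 2) ((N : ℝ) + 1 / 2) := (hc1 _ _).intervalIntegrable
  have hi2 : IntervalIntegrable
      (fun x : ℝ => (dpsi k (x - N) : ℂ) * ((s + k) * (x : ℂ) ^ (s + k - 1)))
      MeasureTheory.volume ((N : ℝ) - 1 / 2) ((N : ℝ) + 1 / 2) := by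
    have := ((hc1 k (s + k - 1)).intervalIntegrable (μ := MeasureTheory.volume)).const_mul (s + k)
    refine this.congr (fun x _ => ?_)
    ring
  have hFTC := intervalIntegral.integral_eq_sub_of_hasDerivAt hd (hi1.add hi2)
  rw [intervalIntegral.integral_add hi1 hi2] at hFTC
  have e1 : dpsi k ((N : ℝ) + 1 / 2 - N) = 0 := dpsi_supp k _ (by
    rw [add_sub_cancel_left]; norm_num [abs_of_pos])
  have e2 : dpsi k ((N : ℝ) - 1 / 2 - N) = 0 := dpsi_supp k _ (by
    have : (N : ℝ) - 1 / 2 - N = -(1 / 2) := by ring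
    rw [this, abs_neg]; norm_num [abs_of_pos])
  rw [e1, e2] at hFTC
  simp only [Complex.ofReal_zero, zero_mul, sub_zero] at hFTC
  have e3 : ∫ x in ((N : ℝ) - 1 / 2)..((N : ℝ) + 1 / 2),
      (dpsi k (x - N) : ℂ) * ((s + k) * (x : ℂ) ^ (s + k - 1)) = (s + k) * Ik N k s := by
    unfold Ik
    rw [← intervalIntegral.integral_const_mul]
    apply intervalIntegral.integral_congr
    intro x _
    simp only
    ring
  have e4 : ∫ x in ((N : ℝ) - 1 / 2)..((N : ℝ) + 1 / 2),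
      (dpsi (k + 1) (x - N) : ℂ) * (x : ℂ) ^ (s + k) = Ik N (k + 1) s := by
    unfold Ik
    apply intervalIntegral.integral_congr
    intro x _
    simp only
    congr 2
    push_cast
    ring
  rw [e3, e4] at hFTC
  linear_combination hFTC

theorem Ik_le (N : ℕ) (hN : 1 ≤ N) (s : ℂ) (B : ℕ) : ‖Ik N 0 s‖ * |s.im| ^ B ≤ ‖Ik N B s‖ := by
  induction B with
  | zero => simp
  | succ B ih =>
    have h1 : ‖Ik N (B + 1) s‖ = ‖s + B‖ * ‖Ik N B s‖ := by
      rw [← norm_mul, Ik_step N B hN s, norm_neg]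
    have h2 : |s.im| ≤ ‖s + B‖ := by
      have := Complex.abs_im_le_norm (s + B)
      simpa using this
    rw [h1, pow_succ, ← mul_assoc, mul_comm]
    exact mul_le_mul h2 ih (by positivity) (norm_nonneg _)

theorem Ik_bound (B : ℕ) (A1 A2 : ℝ) : ∃ C : ℝ, 0 ≤ C ∧ ∀ N : ℕ, 1 ≤ N → ∀ s : ℂ,
    A1 ≤ s.re → s.re ≤ A2 → ‖Ik N B s‖ ≤ C * (N : ℝ) ^ (s.re - 1 + B) := by
  obtain ⟨M, hM0, hM⟩ := dpsi_bound B
  refine ⟨M * 2 ^ (max |A1| |A2| + B + 1), by positivity, fun N hN s h1 h2 => ?_⟩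
  have hN1 : (1 : ℝ) ≤ N := by exact_mod_cast hN
  have hN0 : (0 : ℝ) < N := by linarith
  have hre : |s.re| ≤ max |A1| |A2| := abs_le_max_abs_abs h1 h2
  have key : ∀ x ∈ Set.uIoc ((N : ℝ) - 1 / 2) ((N : ℝ) + 1 / 2),
      ‖(dpsi B (x - N) : ℂ) * (x : ℂ) ^ (s + B - 1)‖ ≤
        M * 2 ^ (max |A1| |A2| + B + 1) * (N : ℝ) ^ (s.re - 1 + B) := by
    intro x hx
    rw [Set.uIoc_of_le (by linarith)] at hx
    have hx0 : 0 < x := by linarith [hx.1]
    rw [norm_mul, Complex.norm_real, Complex.norm_cpow_eq_rpow_re_of_pos hx0, mul_assoc]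
    apply mul_le_mul (hM _) _ (by positivity) hM0
    have e1 : (s + B - 1).re = s.re - 1 + B := by simp; ring
    rw [e1]
    obtain ⟨e, he⟩ : ∃ e : ℝ, e = s.re - 1 + B := ⟨_, rfl⟩
    rw [← he]
    have he2 : |e| ≤ max |A1| |A2| + B + 1 := by
      rw [he]
      calc |s.re - 1 + B| ≤ |s.re| + 1 + B := by
            have t1 := abs_add_le (s.re - 1) (B : ℝ)
            have t2 := abs_sub (s.re) 1
            rw [abs_one] at t2
            rw [Nat.abs_cast] at t1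
            linarith
        _ ≤ _ := by linarith
    have hx1 : x / N ≤ 2 := by
      rw [div_le_iff₀ hN0]
      linarith [hx.2]
    have hx2 : 1 / 2 ≤ x / N := by
      rw [le_div_iff₀ hN0]
      linarith [hx.1]
    have e2 : x ^ e = (x / N) ^ e * (N : ℝ) ^ e := by
      rw [Real.div_rpow hx0.le hN0.le]
      field_simp
    rw [e2]
    apply mul_le_mul_of_nonneg_right _ (by positivity)
    have hxN : 0 < x / N := by positivity
    calc (x / N) ^ e ≤ 2 ^ |e| := by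
          rcases le_total 0 e with h0 | h0
          · rw [abs_of_nonneg h0]
            exact Real.rpow_le_rpow hxN.le hx1 h0
          · rw [abs_of_nonpos h0, Real.rpow_neg (by norm_num)]
            have : (x / N) ^ e ≤ (1 / 2) ^ e := Real.rpow_le_rpow_of_nonpos (by norm_num) hx2 h0
            refine this.trans (le_of_eq ?_)
            rw [one_div, Real.inv_rpow (by norm_num)]
      _ ≤ 2 ^ (max |A1| |A2| + B + 1) := Real.rpow_le_rpow_of_exponent_le (by norm_num) he2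
  have h3 := intervalIntegral.norm_integral_le_of_norm_le_const key
  unfold Ik
  refine h3.trans (le_of_eq ?_)
  have : |(N : ℝ) + 1 / 2 - (N - 1 / 2)| = 1 := by
    have : (N : ℝ) + 1 / 2 - (N - 1 / 2) = 1 := by ring
    rw [this, abs_one]
  rw [this, mul_one]

theorem mellin_eq_Ik (N : ℕ) (hN : 1 ≤ N) (s : ℂ) : mellin (wN N) s = Ik N 0 s := by
  have hN1 : (1 : ℝ) ≤ N := by exact_mod_cast hN
  unfold mellin Ik
  rw [intervalIntegral.integral_of_le (by linarith)]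
  have hsub : Set.Ioc ((N : ℝ) - 1 / 2) ((N : ℝ) + 1 / 2) ⊆ Set.Ioi 0 := by
    intro x hx
    have : (0 : ℝ) < x := by linarith [hx.1]
    exact this
  rw [← MeasureTheory.setIntegral_eq_of_subset_of_forall_sdiff_eq_zero measurableSet_Ioi hsub]
  · apply MeasureTheory.setIntegral_congr_fun measurableSet_Ioi
    intro x _
    simp only [wN, dpsi, iteratedDeriv_zero, smul_eq_mul, Nat.cast_zero, add_zero]
    ring
  · intro x hx
    have h1 : dpsi 0 (x - N) = 0 := by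
      apply dpsi_supp
      by_contra hc
      push Not at hc
      apply hx.2
      obtain ⟨h2, h3⟩ := abs_le.mp hc
      exact ⟨by linarith, by linarith⟩
    rw [h1, Complex.ofReal_zero, zero_mul]

theorem mel_bound (B : ℕ) (A1 A2 : ℝ) : ∃ C : ℝ, 0 ≤ C ∧ ∀ N : ℕ, 1 ≤ N → ∀ s : ℂ,
    A1 ≤ s.re → s.re ≤ A2 →
    ‖mellin (wN N) s‖ * |s.im| ^ B ≤ C * (N : ℝ) ^ (s.re - 1 + B) := by
  obtain ⟨C, hC0, hC⟩ := Ik_bound B A1 A2
  refine ⟨C, hC0, fun N hN s h1 h2 => ?_⟩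
  rw [mellin_eq_Ik N hN s]
  exact (Ik_le N hN s B).trans (hC N hN s h1 h2)

end Pool.Agent.H26.WFa
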