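import Pool.Agent.H26.WFa.Defs

/-!
# WFa/CSq: the sum over primes of a product

PROOF. (1) By induction on `L` there is `a'` with `LSeriesSummable a' s`,
`LSeries a' s = (L.map fun x => x.2 s).prod` for `Re s > 1`, `a' 1 = 1` and
`a' p = ∑ over L of x.1 p` for every prime `p`: for the empty list `a' = δ 1` , for `x :: L'` take
the Dirichlet convolution `LSeries.convolution x.1 a''` (`LSeries_convolution'`); its value at a
prime `p` is `x.1 1 * a'' p + x.1 p * a'' 1`.
(2) Uniqueness (`LSeries.eq_of_LSeries_eventually_eq`): `a p = a' p`.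
(3) Cauchy-Schwarz: `‖∑ z_i‖ ^ 2 ≤ length * ∑ ‖z_i‖ ^ 2`, sum over `p ≤ x` with weights `1 / p`.
-/

set_option autoImplicit false

namespace Pool.Agent.H26.WFa

open Complex Pool.Agent.H11.Selberg

private lemma abs_lt_top (c : ℕ → ℂ) (hc : ∀ s : ℂ, 1 < s.re → LSeriesSummable c s) :
    LSeries.abscissaOfAbsConv c < ⊤ := by
  have h := (hc 2 (by norm_num)).abscissaOfAbsConv_le
  refine lt_of_le_of_lt h ?_
  exact EReal.coe_lt_top _

private lemma eq_of_series (c c' : ℕ → ℂ) (hc : ∀ s : ℂ, 1 < s.re → LSeriesSummable c s)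
    (hc' : ∀ s : ℂ, 1 < s.re → LSeriesSummable c' s)
    (h : ∀ s : ℂ, 1 < s.re → LSeries c s = LSeries c' s) (n : ℕ) (hn : n ≠ 0) : c n = c' n := by
  refine LSeries.eq_of_LSeries_eventually_eq (abs_lt_top c hc) (abs_lt_top c' hc') ?_ hn
  filter_upwards [Filter.eventually_gt_atTop (1 : ℝ)] with x hx
  exact h x (by simpa using hx)

private lemma prod_series : ∀ (L : List ((ℕ → ℂ) × (ℂ → ℂ))), (∀ x ∈ L, IsSelberg x.1 x.2) →
    ∃ g : ℕ → ℂ, g 1 = 1 ∧ (∀ s : ℂ, 1 < s.re → LSeriesSummable g s) ∧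
      (∀ s : ℂ, 1 < s.re → LSeries g s = (L.map (fun x => x.2 s)).prod) ∧
      ∀ p : ℕ, p.Prime → g p = (L.map (fun x => x.1 p)).sum
  | [] => by
    intro _
    refine ⟨LSeries.delta, ?_, ?_, ?_, ?_⟩
    · simp [LSeries.delta]
    · intro s hs
      have e : LSeries.term LSeries.delta s = fun n => if n = 1 then 1 else 0 :=
        funext fun n => LSeries.term_delta s n
      rw [LSeriesSummable, e]
      exact (hasSum_ite_eq 1 (1 : ℂ)).summable
    · intro s hs
      rw [LSeries_delta]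
      simp
    · intro p hp
      simp [LSeries.delta, hp.ne_one]
  | y :: L => by
    intro hL
    obtain ⟨g, g1, gs, gp, gq⟩ := prod_series L (fun x hx => hL x (List.mem_cons_of_mem _ hx))
    have hy := hL y List.mem_cons_self
    refine ⟨LSeries.convolution y.1 g, ?_, ?_, ?_, ?_⟩
    · rw [LSeries.convolution_def]
      simp [hy.one, g1]
    · intro s h
      exact (hy.summable s h).convolution (gs s h)
    · intro s h
      rw [LSeries_convolution' (hy.summable s h) (gs s h), gp s h, List.map_cons, List.prod_cons,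
        hy.eq_LSeries s h]
    · intro p hp
      rw [LSeries.convolution_def]
      have e : ∑ q ∈ p.divisorsAntidiagonal, y.1 q.1 * g q.2 =
          ∑ i ∈ p.divisors, y.1 i * g (p / i) :=
        Nat.sum_divisorsAntidiagonal (fun i j => y.1 i * g j)
      show ∑ q ∈ p.divisorsAntidiagonal, y.1 q.1 * g q.2 = _
      rw [e, hp.divisors, Finset.sum_pair hp.one_lt.ne, Nat.div_one, Nat.div_self hp.pos,
        List.map_cons, List.sum_cons, gq p hp, hy.one, g1]
      ring

theorem prime_coeff (a : ℕ → ℂ) (F : ℂ → ℂ) (h : IsSelberg a F)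
    (L : List ((ℕ → ℂ) × (ℂ → ℂ))) (hL : ∀ x ∈ L, IsSelberg x.1 x.2)
    (hF : ∀ s : ℂ, 1 < s.re → F s = (L.map (fun x => x.2 s)).prod) (p : ℕ) (hp : p.Prime) :
    a p = (L.map (fun x => x.1 p)).sum := by
  obtain ⟨g, -, gs, gp, gq⟩ := prod_series L hL
  rw [← gq p hp]
  refine eq_of_series a g h.summable gs (fun s hs => ?_) p hp.ne_zero
  rw [← h.eq_LSeries s hs, hF s hs, gp s hs]

private lemma norm_sum_sq : ∀ (M : List ℂ),
    ‖M.sum‖ ^ 2 ≤ M.length * (M.map (fun z => ‖z‖ ^ 2)).sum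
  | [] => by simp
  | z :: M => by
    have ih := norm_sum_sq M
    rw [List.sum_cons, List.length_cons, List.map_cons, List.sum_cons]
    have h1 : ‖z + M.sum‖ ≤ ‖z‖ + ‖M.sum‖ := norm_add_le _ _
    have h2 : ‖z + M.sum‖ ^ 2 ≤ (‖z‖ + ‖M.sum‖) ^ 2 := by gcongr
    refine h2.trans ?_
    push_cast
    set n : ℝ := (M.length : ℝ) with hn
    set T : ℝ := (M.map (fun z => ‖z‖ ^ 2)).sum with hT
    have hn0 : 0 ≤ n := Nat.cast_nonneg _
    have hT0 : 0 ≤ T := by
      rw [hT]
      refine List.sum_nonneg ?_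
      intro x hx
      rw [List.mem_map] at hx
      obtain ⟨w, -, rfl⟩ := hx
      positivity
    have hz := norm_nonneg z
    have hM := norm_nonneg M.sum
    rcases eq_or_lt_of_le hn0 with h0 | h0
    · rw [← h0] at ih ⊢
      have : ‖M.sum‖ = 0 := by
        have h3 : ‖M.sum‖ ^ 2 ≤ 0 := by linarith
        exact pow_eq_zero_iff (two_ne_zero) |>.1 (le_antisymm h3 (by positivity))
      rw [this]
      nlinarith
    · -- `2 z m ≤ n z^2 + m^2 / n ≤ n z^2 + T`
      have h4 : 2 * ‖z‖ * ‖M.sum‖ ≤ n * ‖z‖ ^ 2 + ‖M.sum‖ ^ 2 / n := by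
        have h5 : 0 ≤ (n * ‖z‖ - ‖M.sum‖) ^ 2 / n := by positivity
        have h6 : (n * ‖z‖ - ‖M.sum‖) ^ 2 / n = n * ‖z‖ ^ 2 + ‖M.sum‖ ^ 2 / n - 2 * ‖z‖ * ‖M.sum‖ := by
          field_simp
          ring
        linarith
      have h7 : ‖M.sum‖ ^ 2 / n ≤ T := by
        rw [div_le_iff₀ h0]
        linarith
      nlinarith

theorem S_le (a : ℕ → ℂ) (F : ℂ → ℂ) (h : IsSelberg a F)
    (L : List ((ℕ → ℂ) × (ℂ → ℂ))) (hL : ∀ x ∈ L, IsSelberg x.1 x.2)
    (hF : ∀ s : ℂ, 1 < s.re → F s = (L.map (fun x => x.2 s)).prod) (x : ℝ) :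
    S a x ≤ L.length * (L.map (fun y => S y.1 x)).sum := by
  have hswap : ∀ (M : List ((ℕ → ℂ) × (ℂ → ℂ))) (A : Finset ℕ),
      (M.map (fun y => ∑ p ∈ A, ‖y.1 p‖ ^ 2 / (p : ℝ))).sum =
        ∑ p ∈ A, (M.map (fun y => ‖y.1 p‖ ^ 2)).sum / (p : ℝ) := by
    intro M A
    induction M with
    | nil => simp
    | cons y M ih =>
      rw [List.map_cons, List.sum_cons, ih, ← Finset.sum_add_distrib]
      refine Finset.sum_congr rfl fun p _ => ?_
      rw [List.map_cons, List.sum_cons, add_div]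
  unfold S
  rw [hswap, Finset.mul_sum]
  refine Finset.sum_le_sum fun p hp => ?_
  rw [Finset.mem_filter] at hp
  rw [prime_coeff a F h L hL hF p hp.2, ← mul_div_assoc]
  gcongr
  have := norm_sum_sq (L.map (fun x => x.1 p))
  rw [List.length_map, List.map_map] at this
  exact this

end Pool.Agent.H26.WFa
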