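import Mathlib
import Pool.Agent.H11.Selberg.Defs
import Pool.Agent.H11.SC6.PrimDef

/-!
# WILD, chapter Fa (step 9): definitions

`Dat` collects the analytic data of an element of the Selberg class (everything except the
Ramanujan bound and the Euler product): `G s = (s - 1) ^ m * F s` is entire of finite order.
The number `∑ j, lam j` is half of the degree.
-/

set_option autoImplicit false

namespace Pool.Agent.H26.WFa

open Complex Pool.Agent.H11.Selberg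

structure Dat (a : ℕ → ℂ) (F G : ℂ → ℂ) (m : ℕ) (Q : ℝ) {r : ℕ} (lam : Fin r → ℝ)
    (mu : Fin r → ℂ) (ε : ℂ) : Prop where
  one : a 1 = 1
  sum : ∀ s : ℂ, 1 < s.re → LSeriesSummable a s
  eqL : ∀ s : ℂ, 1 < s.re → F s = LSeries a s
  diff : Differentiable ℂ G
  order : ∃ A C : ℝ, ∀ s, ‖G s‖ ≤ C * Real.exp (‖s‖ ^ A)
  GF : ∀ s, s ≠ 1 → G s = (s - 1) ^ m * F s
  Qpos : 0 < Q
  lampos : ∀ j, 0 < lam j
  mure : ∀ j, 0 ≤ (mu j).re
  eps : ‖ε‖ = 1
  feq : ∀ s : ℂ, 0 < s.re → s.re < 1 →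
    completed Q lam mu F s =
      ε * (starRingEnd ℂ) (completed Q lam mu F (1 - (starRingEnd ℂ) s))

theorem exists_dat {a : ℕ → ℂ} {F : ℂ → ℂ} (h : IsSelberg a F) :
    ∃ (G : ℂ → ℂ) (m : ℕ) (Q : ℝ) (r : ℕ) (lam : Fin r → ℝ) (mu : Fin r → ℂ) (ε : ℂ),
      Dat a F G m Q lam mu ε := by
  obtain ⟨m, G, hG, hord, hGF⟩ := h.continuation
  obtain ⟨Q, r, lam, mu, ε, hQ, hlam, hmu, hε, hfe⟩ := h.functional
  exact ⟨G, m, Q, r, lam, mu, ε, ⟨h.one, h.summable, h.eq_LSeries, hG, hord, hGF, hQ, hlam, hmu,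
    hε, hfe⟩⟩

end Pool.Agent.H26.WFa
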