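import Mathlib

/-!
# WFa/LSh: shift of a vertical line of integration

PROOF: as `H11/SC/VShift.lean` (`vertical_shift`), with the bound `C / (1 + |im w|) ^ 2` in place
of the exponential one (rectangle with vertices `a ± T I`, `b ± T I`, `T → ∞`).
-/

set_option autoImplicit false

namespace Pool.Agent.H26.WFa

open Complex

private theorem integrable_sq (C : ℝ) :
    MeasureTheory.Integrable (fun t : ℝ => C / (1 + |t|) ^ 2) := by
  have h1 : MeasureTheory.Integrable (fun t : ℝ => (1 + ‖t‖) ^ (-(2 : ℝ))) :=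
    integrable_one_add_norm (by simp)
  refine (h1.const_mul C).congr (Filter.Eventually.of_forall (fun t => ?_))
  have h2 : (0 : ℝ) < 1 + |t| := by positivity
  simp only [Real.norm_eq_abs]
  rw [Real.rpow_neg h2.le, div_eq_mul_inv]
  norm_num

theorem line_shift (f : ℂ → ℂ) (hf : Differentiable ℂ f) (a b : ℝ) (hab : a ≤ b) (C : ℝ)
    (hb : ∀ w : ℂ, a ≤ w.re → w.re ≤ b → ‖f w‖ ≤ C / (1 + |w.im|) ^ 2) :
    ∫ t : ℝ, f (a + t * I) = ∫ t : ℝ, f (b + t * I) := by
  open MeasureTheory Filter Topology in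
  have hint : ∀ c : ℝ, a ≤ c → c ≤ b → Integrable (fun t : ℝ => f (c + t * I)) := by
    intro c hc1 hc2
    have hcont : Continuous (fun t : ℝ => f (c + t * I)) := hf.continuous.comp (by fun_prop)
    refine Integrable.mono' (integrable_sq C) hcont.aestronglyMeasurable (ae_of_all _ (fun t => ?_))
    have := hb (c + t * I) (by simpa using hc1) (by simpa using hc2)
    simpa using this
  have hlim : ∀ c : ℝ, a ≤ c → c ≤ b →
      Tendsto (fun T : ℝ => ∫ t in (-T)..T, f (c + t * I)) atTop (𝓝 (∫ t : ℝ, f (c + t * I))) :=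
    fun c hc1 hc2 => intervalIntegral_tendsto_integral (hint c hc1 hc2) tendsto_neg_atTop_atBot
      tendsto_id
  -- the horizontal integrals
  have hexp : Tendsto (fun T : ℝ => C / (1 + |T|) ^ 2 * |b - a|) atTop (𝓝 0) := by
    have h1 : Tendsto (fun T : ℝ => (1 + |T|) ^ 2) atTop atTop :=
      (tendsto_pow_atTop two_ne_zero).comp (tendsto_atTop_add_const_left _ _ tendsto_abs_atTop_atTop)
    have h2 := (h1.const_div_atTop C).mul_const (|b - a|)
    simpa using h2
  have hhor : ∀ σ : ℝ → ℝ, (∀ T, |σ T| = |T|) →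
      Tendsto (fun T : ℝ => ∫ x in a..b, f (x + (σ T : ℂ) * I)) atTop (𝓝 0) := by
    intro σ hσ
    refine squeeze_zero_norm (fun T => ?_) hexp
    refine intervalIntegral.norm_integral_le_of_norm_le_const (fun x hx => ?_)
    rw [Set.uIoc_of_le hab] at hx
    have := hb (x + σ T * I) (by simpa using hx.1.le) (by simpa using hx.2)
    rw [← hσ T]
    simpa using this
  have h1 := hhor (fun T => -T) (fun T => abs_neg T)
  have h2 := hhor (fun T => T) (fun T => rfl)
  have h3 := hlim a le_rfl hab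
  have h4 := hlim b hab le_rfl
  have h5 : Tendsto (fun T : ℝ => (∫ x in a..b, f (x + ((-T : ℝ) : ℂ) * I)) -
      (∫ x in a..b, f (x + (T : ℂ) * I)) + I • (∫ t in (-T)..T, f (b + t * I)) -
      I • (∫ t in (-T)..T, f (a + t * I))) atTop
      (𝓝 (0 - 0 + I • (∫ t : ℝ, f (b + t * I)) - I • (∫ t : ℝ, f (a + t * I)))) :=
    ((h1.sub h2).add (h4.const_smul I)).sub (h3.const_smul I)
  have h6 : ∀ T : ℝ, (∫ x in a..b, f (x + ((-T : ℝ) : ℂ) * I)) -
      (∫ x in a..b, f (x + (T : ℂ) * I)) + I • (∫ t in (-T)..T, f (b + t * I)) -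
      I • (∫ t in (-T)..T, f (a + t * I)) = 0 := by
    intro T
    have h7 := Complex.integral_boundary_rect_eq_zero_of_differentiableOn f
      ((a : ℂ) + ((-T : ℝ) : ℂ) * I) ((b : ℂ) + (T : ℂ) * I) (fun w hw => (hf w).differentiableWithinAt)
    simpa using h7
  have h9 : (0 : ℂ) - 0 + I • (∫ t : ℝ, f (b + t * I)) - I • (∫ t : ℝ, f (a + t * I)) = 0 := by
    refine tendsto_nhds_unique h5 ?_
    refine (tendsto_const_nhds (x := (0 : ℂ))).congr (fun T => (h6 T).symm)
  have h10 : I * ((∫ t : ℝ, f (b + t * I)) - ∫ t : ℝ, f (a + t * I)) = 0 := by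
    rw [smul_eq_mul, smul_eq_mul] at h9
    linear_combination h9
  rcases mul_eq_zero.1 h10 with h | h
  · exact absurd h I_ne_zero
  · exact (sub_eq_zero.1 h).symm

end Pool.Agent.H26.WFa
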