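import Mathlib

/-!
# WFa/PLs: Phragmen-Lindelof in a strip with polynomial growth

PROOF of `strip_poly`. Compactness gives the two bounds `‖H(σ + t I)‖ ≤ C (1 + |t|) ^ M` for all
`t` on both lines. Take a natural `k ≥ M` and apply `PhragmenLindelof.vertical_strip` to
`f s = H s / (s + (1 - a)) ^ k` (no zero of the denominator for `Re s ≥ a`), see
`H11/SC/PL.lean` (`F_strip`) for the treatment of the order condition `exp (‖s‖ ^ A)`.
-/

set_option autoImplicit false

namespace Pool.Agent.H26.WFa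

open Complex

private theorem pls_line (H : ℂ → ℂ) (hH : Continuous H) (c : ℝ)
    (hc : ∃ M C T : ℝ, ∀ t : ℝ, T ≤ |t| → ‖H (c + t * I)‖ ≤ C * |t| ^ M) :
    ∃ (k : ℕ) (C : ℝ), 0 ≤ C ∧ ∀ t : ℝ, ‖H (c + t * I)‖ ≤ C * (1 + |t|) ^ k := by
  obtain ⟨M, C, T, h⟩ := hc
  obtain ⟨k, hk⟩ := exists_nat_ge |M|
  have hcont : ContinuousOn (fun t : ℝ => ‖H (c + t * I)‖) (Set.Icc (-(max T 1)) (max T 1)) := by
    apply Continuous.continuousOn
    fun_prop
  obtain ⟨D, hD⟩ := (isCompact_Icc.image_of_continuousOn hcont).bddAbove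
  have hD' : ∀ t : ℝ, |t| ≤ max T 1 → ‖H (c + t * I)‖ ≤ D := by
    intro t ht
    apply hD
    exact ⟨t, abs_le.1 ht, rfl⟩
  refine ⟨k, |C| + |D|, by positivity, fun t => ?_⟩
  have h1 : (1 : ℝ) ≤ 1 + |t| := by
    have := abs_nonneg t
    linarith
  have h2 : (1 : ℝ) ≤ (1 + |t|) ^ k := one_le_pow₀ h1
  rcases le_total |t| (max T 1) with ht | ht
  · calc ‖H (c + t * I)‖ ≤ D := hD' t ht
      _ ≤ |D| := le_abs_self D
      _ ≤ |D| * (1 + |t|) ^ k := le_mul_of_one_le_right (abs_nonneg _) h2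
      _ ≤ (|C| + |D|) * (1 + |t|) ^ k := by
          apply mul_le_mul_of_nonneg_right _ (by positivity)
          linarith [abs_nonneg C]
  · have ht1 : 1 ≤ |t| := (le_max_right T 1).trans ht
    have ht0 : T ≤ |t| := (le_max_left T 1).trans ht
    have h3 : |t| ^ M ≤ (1 + |t|) ^ k := by
      calc |t| ^ M ≤ |t| ^ (k : ℝ) :=
            Real.rpow_le_rpow_of_exponent_le ht1 ((le_abs_self M).trans hk)
        _ ≤ (1 + |t|) ^ (k : ℝ) := Real.rpow_le_rpow (abs_nonneg _) (by linarith) (by positivity)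
        _ = (1 + |t|) ^ k := Real.rpow_natCast _ _
    calc ‖H (c + t * I)‖ ≤ C * |t| ^ M := h t ht0
      _ ≤ |C| * |t| ^ M := mul_le_mul_of_nonneg_right (le_abs_self C)
          (Real.rpow_nonneg (abs_nonneg _) _)
      _ ≤ |C| * (1 + |t|) ^ k := mul_le_mul_of_nonneg_left h3 (abs_nonneg _)
      _ ≤ (|C| + |D|) * (1 + |t|) ^ k := by
          apply mul_le_mul_of_nonneg_right _ (by positivity)
          linarith [abs_nonneg D]

private theorem pls_ge {a : ℝ} {s : ℂ} (hs : a ≤ s.re) :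
    1 ≤ ‖s + (1 - a)‖ ∧ (1 + |s.im|) / 2 ≤ ‖s + (1 - a)‖ := by
  have h1 : |(s + (1 - a)).re| ≤ ‖s + (1 - a)‖ := Complex.abs_re_le_norm _
  have h2 : |(s + (1 - a)).im| ≤ ‖s + (1 - a)‖ := Complex.abs_im_le_norm _
  have e1 : (s + (1 - a)).re = s.re + (1 - a) := by simp
  have e2 : (s + (1 - a)).im = s.im := by simp
  rw [e1, abs_of_nonneg (by linarith)] at h1
  rw [e2] at h2
  constructor
  · linarith
  · linarith

theorem strip_poly (H : ℂ → ℂ) (hH : Differentiable ℂ H)
    (hord : ∃ A C : ℝ, ∀ s, ‖H s‖ ≤ C * Real.exp (‖s‖ ^ A)) (a b : ℝ) (hab : a < b)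
    (ha : ∃ M C T : ℝ, ∀ t : ℝ, T ≤ |t| → ‖H (a + t * I)‖ ≤ C * |t| ^ M)
    (hb : ∃ M C T : ℝ, ∀ t : ℝ, T ≤ |t| → ‖H (b + t * I)‖ ≤ C * |t| ^ M) :
    ∃ (k : ℕ) (C : ℝ), 0 ≤ C ∧ ∀ s : ℂ, a ≤ s.re → s.re ≤ b → ‖H s‖ ≤ C * (1 + |s.im|) ^ k := by
  obtain ⟨k1, C1, hC1, h1⟩ := pls_line H hH.continuous a ha
  obtain ⟨k2, C2, hC2, h2⟩ := pls_line H hH.continuous b hb
  obtain ⟨A, C, hAC⟩ := hord
  set k : ℕ := max k1 k2 with hk
  set M : ℝ := (C1 + C2) * 2 ^ k with hM
  have hM0 : 0 ≤ M := by positivity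
  set f : ℂ → ℂ := fun s => H s / (s + (1 - a)) ^ k with hf
  have hne : ∀ s : ℂ, a ≤ s.re → s + (1 - a) ≠ 0 := by
    intro s hs h0
    have h3 := (pls_ge hs).1
    rw [h0, norm_zero] at h3
    linarith
  have hd : DiffContOnCl ℂ f (re ⁻¹' Set.Ioo a b) := by
    apply DifferentiableOn.diffContOnCl
    intro s hs
    have hcl : closure (re ⁻¹' Set.Ioo a b) ⊆ {s : ℂ | a ≤ s.re} := by
      apply closure_minimal
      · intro z hz
        exact hz.1.le
      · exact isClosed_le continuous_const Complex.continuous_re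
    have hs' : a ≤ s.re := hcl hs
    have h2 : (s + (1 - a)) ^ k ≠ 0 := pow_ne_zero k (hne s hs')
    exact ((hH s).div (by fun_prop) h2).differentiableWithinAt
  have hedge : ∀ (c : ℝ) (z : ℂ), a ≤ c → re z = c → ‖H z‖ ≤ (C1 + C2) * (1 + |z.im|) ^ k →
      ‖f z‖ ≤ M := by
    intro c z hc hz hzH
    have h4 := pls_ge (a := a) (s := z) (by linarith)
    have hz2 : z + (1 - a) ≠ 0 := hne z (by linarith)
    rw [hf]
    dsimp only
    rw [norm_div, norm_pow, div_le_iff₀ (by positivity)]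
    calc ‖H z‖ ≤ (C1 + C2) * (1 + |z.im|) ^ k := hzH
      _ = (C1 + C2) * 2 ^ k * ((1 + |z.im|) / 2) ^ k := by
          rw [div_pow]
          field_simp
      _ ≤ (C1 + C2) * 2 ^ k * ‖z + (1 - a)‖ ^ k := by
          apply mul_le_mul_of_nonneg_left _ hM0
          exact pow_le_pow_left₀ (by positivity) h4.2 k
  have heq : ∀ (c : ℝ) (z : ℂ), re z = c → z = c + z.im * I := by
    intro c z hz
    apply Complex.ext
    · simp [hz]
    · simp
  have hleft : ∀ z : ℂ, re z = a → ‖f z‖ ≤ M := by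
    intro z hz
    apply hedge a z le_rfl hz
    have h3 := h1 z.im
    rw [← heq a z hz] at h3
    refine h3.trans ?_
    have h5 : (1 : ℝ) ≤ 1 + |z.im| := by
      have := abs_nonneg z.im
      linarith
    calc C1 * (1 + |z.im|) ^ k1 ≤ C1 * (1 + |z.im|) ^ k :=
          mul_le_mul_of_nonneg_left (pow_le_pow_right₀ h5 (le_max_left _ _)) hC1
      _ ≤ (C1 + C2) * (1 + |z.im|) ^ k := by
          apply mul_le_mul_of_nonneg_right _ (by positivity)
          linarith
  have hright : ∀ z : ℂ, re z = b → ‖f z‖ ≤ M := by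
    intro z hz
    apply hedge b z hab.le hz
    have h3 := h2 z.im
    rw [← heq b z hz] at h3
    refine h3.trans ?_
    have h5 : (1 : ℝ) ≤ 1 + |z.im| := by
      have := abs_nonneg z.im
      linarith
    calc C2 * (1 + |z.im|) ^ k2 ≤ C2 * (1 + |z.im|) ^ k :=
          mul_le_mul_of_nonneg_left (pow_le_pow_right₀ h5 (le_max_right _ _)) hC2
      _ ≤ (C1 + C2) * (1 + |z.im|) ^ k := by
          apply mul_le_mul_of_nonneg_right _ (by positivity)
          linarith
  have hba : 0 < b - a := by linarith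
  set c : ℝ := Real.pi / (b - a) / 2 with hc
  have hc0 : 0 < c := by
    have := Real.pi_pos
    positivity
  set K : ℝ := |a| + |b| with hK
  have hK0 : 0 ≤ K := by positivity
  have hgrow : ∃ c < Real.pi / (b - a), ∃ B, f =O[Filter.comap (_root_.abs ∘ im)
      Filter.atTop ⊓ Filter.principal (re ⁻¹' Set.Ioo a b)]
      fun z ↦ Real.exp (B * Real.exp (c * |z.im|)) := by
    refine ⟨c, ?_, 1, ?_⟩
    · rw [hc]
      apply half_lt_self
      have := Real.pi_pos
      positivity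
    · have hev : ∀ᶠ y : ℝ in Filter.atTop, 1 ≤ y ∧ (K + y) ^ |A| ≤ Real.exp (c * y) := by
        have h1 := (isLittleO_rpow_exp_pos_mul_atTop |A| hc0).bound
          (show (0 : ℝ) < Real.exp (-(c * K)) from Real.exp_pos _)
        have h2 : Filter.Tendsto (fun y : ℝ => K + y) Filter.atTop Filter.atTop :=
          Filter.tendsto_atTop_add_const_left _ _ Filter.tendsto_id
        filter_upwards [h2.eventually h1, Filter.eventually_ge_atTop (1 : ℝ)] with y hy hy1
        refine ⟨hy1, ?_⟩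
        have h3 : (0 : ℝ) ≤ (K + y) ^ |A| := Real.rpow_nonneg (by linarith) _
        rw [Real.norm_of_nonneg h3, Real.norm_of_nonneg (Real.exp_pos _).le, ← Real.exp_add] at hy
        refine hy.trans (Real.exp_le_exp.2 ?_)
        linarith [mul_add c K y]
      refine Asymptotics.IsBigO.of_bound |C| ?_
      have hev' := (hev.comap (_root_.abs ∘ im)).filter_mono
        (inf_le_left (b := Filter.principal (re ⁻¹' Set.Ioo a b)))
      have hmem : ∀ᶠ z : ℂ in Filter.comap (_root_.abs ∘ im) Filter.atTop ⊓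
          Filter.principal (re ⁻¹' Set.Ioo a b), z ∈ re ⁻¹' Set.Ioo a b :=
        Filter.mem_inf_of_right (Filter.mem_principal_self _)
      filter_upwards [hev', hmem] with z hz hz2
      obtain ⟨hz3, hz4⟩ := hz
      simp only [Function.comp_apply] at hz3 hz4
      have hre1 : a < z.re := hz2.1
      have hre2 : z.re < b := hz2.2
      have hzn : ‖z‖ ≤ K + |z.im| := by
        refine (Complex.norm_le_abs_re_add_abs_im z).trans ?_
        have : |z.re| ≤ K := by
          rw [abs_le]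
          have ha1 := neg_abs_le a
          have hb1 := le_abs_self b
          have ha2 := abs_nonneg a
          have hb2 := abs_nonneg b
          constructor <;> linarith
        linarith
      have hz1 : 1 ≤ ‖z‖ := hz3.trans (Complex.abs_im_le_norm z)
      have h5 : ‖z‖ ^ A ≤ Real.exp (c * |z.im|) := by
        refine le_trans ?_ hz4
        calc ‖z‖ ^ A ≤ ‖z‖ ^ |A| := Real.rpow_le_rpow_of_exponent_le hz1 (le_abs_self A)
          _ ≤ (K + |z.im|) ^ |A| := Real.rpow_le_rpow (norm_nonneg _) hzn (abs_nonneg _)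
      have h6 : 1 ≤ ‖z + (1 - a)‖ := (pls_ge hre1.le).1
      rw [hf]
      dsimp only
      rw [norm_div, norm_pow, one_mul, Real.norm_of_nonneg (Real.exp_pos _).le]
      calc ‖H z‖ / ‖z + (1 - a)‖ ^ k ≤ ‖H z‖ := div_le_self (norm_nonneg _) (one_le_pow₀ h6)
        _ ≤ C * Real.exp (‖z‖ ^ A) := hAC z
        _ ≤ |C| * Real.exp (Real.exp (c * |z.im|)) := by
            refine mul_le_mul (le_abs_self C) (Real.exp_le_exp.2 h5) (Real.exp_pos _).le
              (abs_nonneg _)
  refine ⟨k, M * (b - a + 1) ^ k, by positivity, fun s hs1 hs2 => ?_⟩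
  have h7 : ‖f s‖ ≤ M := PhragmenLindelof.vertical_strip hd hgrow hleft hright hs1 hs2
  have hs3 : s + (1 - a) ≠ 0 := hne s hs1
  have h8 : ‖H s‖ = ‖f s‖ * ‖s + (1 - a)‖ ^ k := by
    rw [hf]
    dsimp only
    rw [norm_div, norm_pow, div_mul_cancel₀]
    positivity
  have h9 : ‖s + (1 - a)‖ ≤ (b - a + 1) * (1 + |s.im|) := by
    have e1 : (s + (1 - a)).re = s.re + (1 - a) := by simp
    have e2 : (s + (1 - a)).im = s.im := by simp
    have h10 := Complex.norm_le_abs_re_add_abs_im (s + (1 - a))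
    rw [e1, e2, abs_of_nonneg (by linarith)] at h10
    have h11 := abs_nonneg s.im
    nlinarith [mul_nonneg hba.le h11]
  rw [h8]
  calc ‖f s‖ * ‖s + (1 - a)‖ ^ k ≤ M * ((b - a + 1) * (1 + |s.im|)) ^ k := by
        apply mul_le_mul h7 (pow_le_pow_left₀ (norm_nonneg _) h9 k) (by positivity) hM0
    _ = M * (b - a + 1) ^ k * (1 + |s.im|) ^ k := by
        rw [mul_pow]
        ring

end Pool.Agent.H26.WFa
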