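import Pool.Agent.H26.WFa.EC1
import Pool.Agent.H26.WFa.PLs
import Pool.Agent.H26.WFa.LSh

/-!
# WFa/EC: an entire function of finite order with a Dirichlet series and small growth on the left
has small coefficients

PROOF. Put `W = mellin (wN N)`.
(1) `coeff_int`: `c N = (1 / 2π) ∫ H(2 + it) W(2 + it) dt`.
(2) Shift to `Re s = -A`: `line_shift` for `H * W` (`strip_poly` with `a = -A`, `b = 2`; on
`Re s = 2` `H` is bounded; `mel_bound` with `B = 0` and `B = k + 2`).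
(3) On `Re s = -A`: `‖H‖ ≤ C (1 + |t|) ^ κ` for all `t` (compactness), and with `B0 = ⌈κ⌉ + 2`,
`‖W(-A + it)‖ ≤ C N ^ (-A - 1) (1 + |t|/N) ^ (-B0)`; `(1 + |t|) ^ κ ≤ N ^ κ * (1 + |t|/N) ^ κ`, then substitute
`t = N u`.
-/

set_option autoImplicit false

namespace Pool.Agent.H26.WFa

open Complex

private theorem two_pow (B : ℕ) (x : ℝ) (hx : 0 ≤ x) : (1 + x) ^ B ≤ 2 ^ B * (1 + x ^ B) := by
  have h2 : (0 : ℝ) < 2 ^ B := by positivity
  have h3 : 0 ≤ x ^ B := pow_nonneg hx B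
  rcases le_total x 1 with h | h
  · calc (1 + x) ^ B ≤ 2 ^ B := pow_le_pow_left₀ (by linarith) (by linarith) B
      _ ≤ 2 ^ B * (1 + x ^ B) := by nlinarith
  · calc (1 + x) ^ B ≤ (2 * x) ^ B := pow_le_pow_left₀ (by linarith) (by linarith) B
      _ = 2 ^ B * x ^ B := mul_pow 2 x B
      _ ≤ 2 ^ B * (1 + x ^ B) := by nlinarith

private theorem re_line (A t : ℝ) : ((-A : ℂ) + t * I).re = -A := by simp

private theorem im_line (A t : ℝ) : ((-A : ℂ) + t * I).im = t := by simp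

/-- the transform on the line `Re s = -A` -/
private theorem mel_line (B : ℕ) (A : ℝ) : ∃ C : ℝ, 0 ≤ C ∧ ∀ N : ℕ, 1 ≤ N → ∀ t : ℝ,
    ‖mellin (wN N) (-A + t * I)‖ * (1 + |t| / N) ^ B ≤ C * (N : ℝ) ^ (-A - 1) := by
  obtain ⟨C0, hC0, h0⟩ := mel_bound 0 (-A) (-A)
  obtain ⟨C1, hC1, h1⟩ := mel_bound B (-A) (-A)
  refine ⟨2 ^ B * (C0 + C1), by positivity, fun N hN t => ?_⟩
  have hN0 : (0 : ℝ) < N := by exact_mod_cast hN
  obtain ⟨w, hw⟩ : ∃ w, w = ‖mellin (wN N) (-A + t * I)‖ := ⟨_, rfl⟩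
  have e0 := h0 N hN (-A + t * I) (by rw [re_line]) (by rw [re_line])
  have e1 := h1 N hN (-A + t * I) (by rw [re_line]) (by rw [re_line])
  rw [re_line, im_line, ← hw] at e0 e1
  rw [pow_zero, mul_one, Nat.cast_zero, add_zero] at e0
  rw [Real.rpow_add hN0, Real.rpow_natCast] at e1
  rw [← hw]
  have hw0 : 0 ≤ w := by
    rw [hw]
    exact norm_nonneg _
  have hNB : (0 : ℝ) < (N : ℝ) ^ B := by positivity
  have e2 : w * (|t| / N) ^ B ≤ C1 * (N : ℝ) ^ (-A - 1) := by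
    rw [div_pow, ← mul_div_assoc, div_le_iff₀ hNB]
    linarith
  have e3 := two_pow B (|t| / N) (by positivity)
  calc w * (1 + |t| / N) ^ B ≤ w * (2 ^ B * (1 + (|t| / N) ^ B)) := mul_le_mul_of_nonneg_left e3 hw0
    _ = 2 ^ B * (w + w * (|t| / N) ^ B) := by ring
    _ ≤ 2 ^ B * (C0 * (N : ℝ) ^ (-A - 1) + C1 * (N : ℝ) ^ (-A - 1)) :=
        mul_le_mul_of_nonneg_left (add_le_add e0 e2) (by positivity)
    _ = 2 ^ B * (C0 + C1) * (N : ℝ) ^ (-A - 1) := by ring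

/-- the transform in the strip, for fixed `N` -/
private theorem mel_strip (k : ℕ) (A : ℝ) (N : ℕ) (hN : 1 ≤ N) : ∃ C : ℝ, 0 ≤ C ∧ ∀ w : ℂ,
    -A ≤ w.re → w.re ≤ 2 → ‖mellin (wN N) w‖ * (1 + |w.im|) ^ (k + 2) ≤ C := by
  obtain ⟨C0, hC0, h0⟩ := mel_bound 0 (-A) 2
  obtain ⟨C1, hC1, h1⟩ := mel_bound (k + 2) (-A) 2
  refine ⟨2 ^ (k + 2) * (C0 * (N : ℝ) ^ ((k : ℝ) + 3) + C1 * (N : ℝ) ^ ((k : ℝ) + 3)), by positivity, fun w hw1 hw2 => ?_⟩
  have hN1 : (1 : ℝ) ≤ N := by exact_mod_cast hN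
  have e0 := h0 N hN w hw1 hw2
  have e1 := h1 N hN w hw1 hw2
  rw [pow_zero, mul_one, Nat.cast_zero, add_zero] at e0
  have hk : (0 : ℝ) ≤ k := Nat.cast_nonneg k
  have e0' : ‖mellin (wN N) w‖ ≤ C0 * (N : ℝ) ^ ((k : ℝ) + 3) :=
    e0.trans (mul_le_mul_of_nonneg_left (Real.rpow_le_rpow_of_exponent_le hN1 (by linarith)) hC0)
  have e1' : ‖mellin (wN N) w‖ * |w.im| ^ (k + 2) ≤ C1 * (N : ℝ) ^ ((k : ℝ) + 3) := by
    refine e1.trans (mul_le_mul_of_nonneg_left (Real.rpow_le_rpow_of_exponent_le hN1 ?_) hC1)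
    push_cast
    linarith
  have e3 := two_pow (k + 2) |w.im| (abs_nonneg _)
  calc ‖mellin (wN N) w‖ * (1 + |w.im|) ^ (k + 2)
      ≤ ‖mellin (wN N) w‖ * (2 ^ (k + 2) * (1 + |w.im| ^ (k + 2))) := mul_le_mul_of_nonneg_left e3 (norm_nonneg _)
    _ = 2 ^ (k + 2) * (‖mellin (wN N) w‖ + ‖mellin (wN N) w‖ * |w.im| ^ (k + 2)) := by ring
    _ ≤ 2 ^ (k + 2) * (C0 * (N : ℝ) ^ ((k : ℝ) + 3) + C1 * (N : ℝ) ^ ((k : ℝ) + 3)) :=
        mul_le_mul_of_nonneg_left (add_le_add e0' e1') (by positivity)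

/-- the function on the line `Re s = -A`, for all `t` -/
private theorem line_all (H : ℂ → ℂ) (hH : Differentiable ℂ H) (A κ : ℝ) (hκ : 0 ≤ κ)
    (hb : ∃ C T : ℝ, ∀ t : ℝ, T ≤ |t| → ‖H (-A + t * I)‖ ≤ C * |t| ^ κ) :
    ∃ C : ℝ, 0 ≤ C ∧ ∀ t : ℝ, ‖H (-A + t * I)‖ ≤ C * (1 + |t|) ^ κ := by
  obtain ⟨C, T, h⟩ := hb
  have hc : Continuous fun t : ℝ => H (-A + t * I) := hH.continuous.comp (by fun_prop)
  obtain ⟨C', hC'⟩ := (isCompact_Icc (a := -|T|) (b := |T|)).exists_bound_of_continuousOn hc.continuousOn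
  refine ⟨|C| + |C'|, by positivity, fun t => ?_⟩
  have h1 : (1 : ℝ) ≤ (1 + |t|) ^ κ := Real.one_le_rpow (by linarith [abs_nonneg t]) hκ
  have hC0 := abs_nonneg C
  have hC0' := abs_nonneg C'
  rcases le_total |t| |T| with ht | ht
  · have h2 : ‖H (-A + t * I)‖ ≤ C' := hC' t (abs_le.1 ht)
    have h3 := le_abs_self C'
    nlinarith
  · have h2 := h t ((le_abs_self T).trans ht)
    have h3 : |t| ^ κ ≤ (1 + |t|) ^ κ := Real.rpow_le_rpow (abs_nonneg t) (by linarith) hκ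
    have h4 : 0 ≤ |t| ^ κ := Real.rpow_nonneg (abs_nonneg t) κ
    have h5 := le_abs_self C
    calc ‖H (-A + t * I)‖ ≤ C * |t| ^ κ := h2
      _ ≤ |C| * |t| ^ κ := mul_le_mul_of_nonneg_right h5 h4
      _ ≤ |C| * (1 + |t|) ^ κ := mul_le_mul_of_nonneg_left h3 hC0
      _ ≤ (|C| + |C'|) * (1 + |t|) ^ κ := by nlinarith

private theorem bound_two (c : ℕ → ℂ) (H : ℂ → ℂ)
    (hs : ∀ s : ℂ, 1 < s.re → LSeriesSummable c s) (hL : ∀ s : ℂ, 1 < s.re → H s = LSeries c s) :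
    ∃ M C T : ℝ, ∀ t : ℝ, T ≤ |t| → ‖H ((2 : ℝ) + t * I)‖ ≤ C * |t| ^ M := by
  refine ⟨0, ∑' n, ‖LSeries.term c 2 n‖, 0, fun t _ => ?_⟩
  rw [Real.rpow_zero, mul_one]
  have hre : ((2 : ℝ) + t * I : ℂ).re = 2 := by simp
  have h2 : (1 : ℝ) < ((2 : ℝ) + t * I : ℂ).re := by
    rw [hre]
    norm_num
  have h3 : Summable fun n => ‖LSeries.term c 2 n‖ := (hs 2 (by norm_num)).norm
  have h4 : Summable fun n => ‖LSeries.term c ((2 : ℝ) + t * I) n‖ := (hs _ h2).norm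
  rw [hL _ h2, LSeries]
  refine (norm_tsum_le_tsum_norm h4).trans (h4.tsum_le_tsum (fun n => ?_) h3)
  exact LSeries.norm_term_le_of_re_le_re c (by rw [hre]; norm_num) n

theorem coeff_decay (c : ℕ → ℂ) (H : ℂ → ℂ) (hH : Differentiable ℂ H)
    (hord : ∃ A C : ℝ, ∀ s, ‖H s‖ ≤ C * Real.exp (‖s‖ ^ A))
    (hs : ∀ s : ℂ, 1 < s.re → LSeriesSummable c s) (hL : ∀ s : ℂ, 1 < s.re → H s = LSeries c s)
    (A κ : ℝ) (hA : 0 < A) (hκ : 0 ≤ κ)
    (hb : ∃ C T : ℝ, ∀ t : ℝ, T ≤ |t| → ‖H (-A + t * I)‖ ≤ C * |t| ^ κ) :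
    ∃ C : ℝ, ∀ N : ℕ, 1 ≤ N → ‖c N‖ ≤ C * (N : ℝ) ^ (κ - A) := by
  obtain ⟨C2, hC2, h2⟩ := line_all H hH A κ hκ hb
  obtain ⟨C3, hC3, h3⟩ := mel_line (⌈κ⌉₊ + 2) A
  obtain ⟨k, C4, hC4, h4⟩ := strip_poly H hH hord (-A) 2 (by linarith)
    (by
      obtain ⟨C, T, h⟩ := hb
      refine ⟨κ, C, T, fun t ht => ?_⟩
      have := h t ht
      push_cast
      exact this) (bound_two c H hs hL)
  refine ⟨C2 * C3 / 2, fun N hN => ?_⟩
  have hN0 : (0 : ℝ) < N := by exact_mod_cast hN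
  have hN1 : (1 : ℝ) ≤ N := by exact_mod_cast hN
  -- the shift
  obtain ⟨C5, hC5, h5⟩ := mel_strip k A N hN
  have hshift : ∫ t : ℝ, H (2 + t * I) * mellin (wN N) (2 + t * I) =
      ∫ t : ℝ, H (-A + t * I) * mellin (wN N) (-A + t * I) := by
    have h6 := line_shift (fun s => H s * mellin (wN N) s) (hH.mul (mel_diff N hN)) (-A) 2 (by linarith) (C4 * C5)
      (fun w hw1 hw2 => by
        have h7 := h4 w hw1 hw2
        have h8 := h5 w hw1 hw2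
        have h9 : (0 : ℝ) < (1 + |w.im|) ^ 2 := by positivity
        rw [le_div_iff₀ h9, norm_mul]
        calc ‖H w‖ * ‖mellin (wN N) w‖ * (1 + |w.im|) ^ 2
            ≤ C4 * (1 + |w.im|) ^ k * ‖mellin (wN N) w‖ * (1 + |w.im|) ^ 2 := by
              apply mul_le_mul_of_nonneg_right _ h9.le
              exact mul_le_mul_of_nonneg_right h7 (norm_nonneg _)
          _ = C4 * (‖mellin (wN N) w‖ * (1 + |w.im|) ^ (k + 2)) := by ring
          _ ≤ C4 * C5 := mul_le_mul_of_nonneg_left h8 hC4)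
    push_cast at h6
    exact h6.symm
  -- the bound on the line
  have hpt : ∀ t : ℝ, ‖H (-A + t * I) * mellin (wN N) (-A + t * I)‖ ≤
      C2 * C3 * (N : ℝ) ^ (κ - A - 1) * (1 + (t / N) ^ 2)⁻¹ := by
    intro t
    have hx0 : 0 ≤ |t| / N := by positivity
    have hx1 : (0 : ℝ) < 1 + |t| / N := by positivity
    have g1 := h2 t
    have g2 := h3 N hN t
    have g3 : (1 + |t|) ^ κ ≤ (N : ℝ) ^ κ * (1 + |t| / N) ^ κ := by
      rw [← Real.mul_rpow hN0.le hx1.le]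
      apply Real.rpow_le_rpow (by positivity) _ hκ
      have : (N : ℝ) * (1 + |t| / N) = N + |t| := by
        field_simp
      rw [this]
      linarith
    have g4 : (1 + |t| / N) ^ κ ≤ (1 + |t| / N) ^ ⌈κ⌉₊ := by
      rw [← Real.rpow_natCast]
      exact Real.rpow_le_rpow_of_exponent_le (by linarith) (Nat.le_ceil κ)
    have g5 : 1 + (t / N) ^ 2 ≤ (1 + |t| / N) ^ 2 := by
      have : (t / N) ^ 2 = (|t| / N) ^ 2 := by
        rw [div_pow, div_pow, sq_abs]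
      rw [this]
      nlinarith
    have g6 : (0 : ℝ) < 1 + (t / N) ^ 2 := by positivity
    have hNκ : (0 : ℝ) < (N : ℝ) ^ κ := Real.rpow_pos_of_pos hN0 κ
    rw [norm_mul, ← div_eq_mul_inv, le_div_iff₀ g6]
    obtain ⟨w, hw⟩ : ∃ w, w = ‖mellin (wN N) (-A + t * I)‖ := ⟨_, rfl⟩
    rw [← hw] at g2 ⊢
    have hw0 : 0 ≤ w := by
      rw [hw]
      exact norm_nonneg _
    have g7 : (N : ℝ) ^ (κ - A - 1) = (N : ℝ) ^ κ * (N : ℝ) ^ (-A - 1) := by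
      rw [← Real.rpow_add hN0]
      congr 1
      ring
    calc ‖H (-A + t * I)‖ * w * (1 + (t / N) ^ 2)
        ≤ C2 * (1 + |t|) ^ κ * w * (1 + |t| / N) ^ 2 := by
          apply mul_le_mul (mul_le_mul_of_nonneg_right g1 hw0) g5 g6.le
          positivity
      _ ≤ C2 * ((N : ℝ) ^ κ * (1 + |t| / N) ^ ⌈κ⌉₊) * w * (1 + |t| / N) ^ 2 := by
          apply mul_le_mul_of_nonneg_right _ (by positivity)
          apply mul_le_mul_of_nonneg_right _ hw0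
          apply mul_le_mul_of_nonneg_left _ hC2
          exact g3.trans (mul_le_mul_of_nonneg_left g4 hNκ.le)
      _ = C2 * (N : ℝ) ^ κ * (w * (1 + |t| / N) ^ (⌈κ⌉₊ + 2)) := by ring
      _ ≤ C2 * (N : ℝ) ^ κ * (C3 * (N : ℝ) ^ (-A - 1)) := mul_le_mul_of_nonneg_left g2 (by positivity)
      _ = C2 * C3 * (N : ℝ) ^ (κ - A - 1) := by
          rw [g7]
          ring
  have hint : MeasureTheory.Integrable fun t : ℝ => C2 * C3 * (N : ℝ) ^ (κ - A - 1) * (1 + (t / N) ^ 2)⁻¹ :=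
    (integrable_inv_one_add_sq.comp_div hN0.ne').const_mul _
  have hval : ∫ t : ℝ, C2 * C3 * (N : ℝ) ^ (κ - A - 1) * (1 + (t / N) ^ 2)⁻¹ =
      C2 * C3 * (N : ℝ) ^ (κ - A - 1) * (N * Real.pi) := by
    rw [MeasureTheory.integral_const_mul]
    congr 1
    have := MeasureTheory.Measure.integral_comp_div (fun x : ℝ => (1 + x ^ 2)⁻¹) (N : ℝ)
    rw [this, integral_univ_inv_one_add_sq, abs_of_pos hN0, smul_eq_mul]
  have hnorm := MeasureTheory.norm_integral_le_of_norm_le hint (Filter.Eventually.of_forall hpt)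
  rw [hval] at hnorm
  rw [coeff_int c H hs hL N hN, hshift, norm_mul, Complex.norm_real, Real.norm_of_nonneg (by positivity)]
  calc 1 / (2 * Real.pi) * ‖∫ t : ℝ, H (-A + t * I) * mellin (wN N) (-A + t * I)‖
      ≤ 1 / (2 * Real.pi) * (C2 * C3 * (N : ℝ) ^ (κ - A - 1) * (N * Real.pi)) :=
        mul_le_mul_of_nonneg_left hnorm (by positivity)
    _ = C2 * C3 / 2 * ((N : ℝ) ^ (κ - A - 1) * N) := by
        field_simp
    _ = C2 * C3 / 2 * (N : ℝ) ^ (κ - A) := by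
        congr 1
        rw [← Real.rpow_add_one hN0.ne']
        congr 1
        ring

end Pool.Agent.H26.WFa
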