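import Mathlib

/-!
# WFa/EC2: an entire function with a rapidly decaying Dirichlet series equals it everywhere

PROOF. `∑ ‖c n‖ n ^ (-σ')` converges for `σ' > σ - δ` (`LSeriesSummable_of_le_const_mul_rpow` or
`LSeries.abscissaOfAbsConv_le_of_le_const_mul_rpow`); `LSeries_analyticOnNhd` and the identity
theorem on the half plane `Re s > σ - δ` (preconnected), with agreement on `Re s > max 1 ..`.
-/

set_option autoImplicit false

namespace Pool.Agent.H26.WFa

open Complex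

theorem LSeries_eq_everywhere (c : ℕ → ℂ) (H : ℂ → ℂ) (hH : Differentiable ℂ H)
    (hs : ∀ s : ℂ, 1 < s.re → LSeriesSummable c s) (hL : ∀ s : ℂ, 1 < s.re → H s = LSeries c s)
    (σ : ℝ) (hc : ∃ C δ : ℝ, 0 < δ ∧ ∀ N : ℕ, 1 ≤ N → ‖c N‖ ≤ C * (N : ℝ) ^ (σ - 1 - δ)) :
    ∀ s : ℂ, σ ≤ s.re → LSeriesSummable c s ∧ H s = LSeries c s := by
  obtain ⟨C, δ, hδ, hC⟩ := hc
  have ha : LSeries.abscissaOfAbsConv c ≤ ((σ - 1 - δ : ℝ) : EReal) + 1 :=
    LSeries.abscissaOfAbsConv_le_of_le_const_mul_rpow ⟨C, fun n hn => hC n (Nat.one_le_iff_ne_zero.2 hn)⟩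
  have ha' : LSeries.abscissaOfAbsConv c ≤ ((σ - δ : ℝ) : EReal) := by
    refine ha.trans (le_of_eq ?_)
    rw [show (1 : EReal) = ((1 : ℝ) : EReal) from rfl, ← EReal.coe_add]
    congr 1
    ring
  have hlt : ∀ s : ℂ, σ - δ < s.re → LSeries.abscissaOfAbsConv c < s.re := fun s h =>
    lt_of_le_of_lt ha' (EReal.coe_lt_coe_iff.2 h)
  set U : Set ℂ := {s : ℂ | σ - δ < s.re} with hU
  have hpre : IsPreconnected U := (convex_halfSpace_re_gt _).isPreconnected
  have h1 : AnalyticOnNhd ℂ H U := fun z _ => hH.analyticAt z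
  have h2 : AnalyticOnNhd ℂ (LSeries c) U := (LSeries_analyticOnNhd c).mono fun s h => hlt s h
  have h0 : ((max σ 1 + 1 : ℝ) : ℂ) ∈ U := by
    show σ - δ < ((max σ 1 + 1 : ℝ) : ℂ).re
    rw [ofReal_re]
    have := le_max_left σ 1
    linarith
  have hev : H =ᶠ[nhds ((max σ 1 + 1 : ℝ) : ℂ)] LSeries c := by
    have ho : IsOpen {s : ℂ | 1 < s.re} := isOpen_lt continuous_const continuous_re
    have hm : ((max σ 1 + 1 : ℝ) : ℂ) ∈ {s : ℂ | 1 < s.re} := by
      show 1 < ((max σ 1 + 1 : ℝ) : ℂ).re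
      rw [ofReal_re]
      have := le_max_right σ 1
      linarith
    filter_upwards [ho.mem_nhds hm] with s h using hL s h
  have hE := h1.eqOn_of_preconnected_of_eventuallyEq h2 hpre h0 hev
  intro s h
  have h' : σ - δ < s.re := by linarith
  exact ⟨LSeriesSummable_of_abscissaOfAbsConv_lt_re (hlt s h'), hE h'⟩

end Pool.Agent.H26.WFa
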