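import Pool.Agent.H26.WFa.Defs

/-!
# WFa/Two: `(1 - 2 ^ (1 - s)) ^ m * F s` is an entire Dirichlet series of finite order

PROOF. Coefficients: `c_0 = a`, `c_(k+1) n = c_k n - (if 2 ∣ n then 2 * c_k (n / 2) else 0)`;
`LSeries c_(k+1) s = (1 - 2 * 2 ^ (-s)) * LSeries c_k s` for `Re s > 1` (e.g. by
`LSeries.convolution` with the coefficients `1, -2` at `1, 2`, or directly). Entire function:
`E s = dslope (fun s => 1 - 2 ^ (1 - s)) 1 s` is entire, `(s - 1) * E s = 1 - 2 ^ (1 - s)`, and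
`H s = E s ^ m * G s`. Order: `‖E s‖ ≤ 1 + 2 ^ (1 + ‖s‖)` for `‖s - 1‖ ≥ 1`, bounded for
`‖s - 1‖ ≤ 1`, so `‖E s‖ ^ m * ‖G s‖ ≤ C exp (‖s‖ ^ A')` (see `norm_order` in `H11/SC/Norm.lean`
for similar estimates with `‖s‖ ^ A`).
-/

set_option autoImplicit false

namespace Pool.Agent.H26.WFa

open Complex Pool.Agent.H11.Selberg

private noncomputable def bc (n : ℕ) : ℂ := if n = 1 then 1 else if n = 2 then -2 else 0

private lemma bc_has (s : ℂ) : HasSum (LSeries.term bc s) (1 - (2 : ℂ) ^ (1 - s)) := by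
  have h1 : HasSum (LSeries.term bc s) (∑ n ∈ ({1, 2} : Finset ℕ), LSeries.term bc s n) := by
    apply hasSum_sum_of_ne_finset_zero
    intro n hn
    simp only [Finset.mem_insert, Finset.mem_singleton, not_or] at hn
    rw [LSeries.term_def]
    split_ifs with h0
    · rfl
    · simp [bc, hn.1, hn.2]
  have h2 : (∑ n ∈ ({1, 2} : Finset ℕ), LSeries.term bc s n) = 1 - (2 : ℂ) ^ (1 - s) := by
    rw [Finset.sum_pair (by norm_num)]
    rw [LSeries.term_of_ne_zero (by norm_num), LSeries.term_of_ne_zero (by norm_num)]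
    have h3 : (2 : ℂ) ^ (1 - s) = 2 / 2 ^ s := by
      rw [Complex.cpow_sub _ _ (by norm_num), Complex.cpow_one]
    rw [h3]
    simp [bc]
    ring
  rwa [h2] at h1

private lemma exists_coef {a : ℕ → ℂ} (ha : ∀ s : ℂ, 1 < s.re → LSeriesSummable a s) (m : ℕ) :
    ∃ c : ℕ → ℂ, (∀ s : ℂ, 1 < s.re → LSeriesSummable c s) ∧
      ∀ s : ℂ, 1 < s.re → LSeries c s = (1 - (2 : ℂ) ^ (1 - s)) ^ m * LSeries a s := by
  induction m with
  | zero => exact ⟨a, ha, fun s _ => by simp⟩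
  | succ m ih =>
    obtain ⟨c, hc, hcL⟩ := ih
    have hb : ∀ s : ℂ, LSeriesSummable bc s := fun s => (bc_has s).summable
    refine ⟨LSeries.convolution bc c, fun s hs => (hb s).convolution (hc s hs), fun s hs => ?_⟩
    rw [LSeries_convolution' (hb s) (hc s hs), hcL s hs]
    have : LSeries bc s = 1 - (2 : ℂ) ^ (1 - s) := (bc_has s).tsum_eq
    rw [this, pow_succ]
    ring

private noncomputable def e0 (s : ℂ) : ℂ := 1 - (2 : ℂ) ^ (1 - s)

private lemma e0_diff : Differentiable ℂ e0 := by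
  intro s
  unfold e0
  apply DifferentiableAt.const_sub
  apply DifferentiableAt.const_cpow
  · fun_prop
  · left; norm_num

private noncomputable def E1 : ℂ → ℂ := dslope e0 1

private lemma E1_diff : Differentiable ℂ E1 := by
  rw [← differentiableOn_univ]
  unfold E1
  rw [Complex.differentiableOn_dslope Filter.univ_mem]
  exact e0_diff.differentiableOn

private lemma E1_eq (s : ℂ) : (s - 1) * E1 s = 1 - (2 : ℂ) ^ (1 - s) := by
  have h := sub_smul_dslope e0 1 s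
  simp only [smul_eq_mul] at h
  unfold E1
  rw [h]
  simp [e0]

private lemma E1_norm {s : ℂ} (hs : 1 ≤ ‖s - 1‖) : ‖E1 s‖ ≤ 3 * Real.exp ‖s‖ := by
  have h1 : ‖(s - 1) * E1 s‖ = ‖s - 1‖ * ‖E1 s‖ := norm_mul _ _
  have h2 : ‖E1 s‖ ≤ ‖s - 1‖ * ‖E1 s‖ := le_mul_of_one_le_left (norm_nonneg _) hs
  rw [← h1, E1_eq] at h2
  have h3 : ‖(2 : ℂ) ^ (1 - s)‖ = (2 : ℝ) ^ (1 - s.re) := by
    have := Complex.norm_cpow_eq_rpow_re_of_pos (show (0:ℝ) < 2 by norm_num) (1 - s)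
    simpa using this
  have h4 : (2 : ℝ) ^ (1 - s.re) ≤ 2 * Real.exp ‖s‖ := by
    have h5 : 1 - s.re ≤ 1 + ‖s‖ := by
      have := Complex.abs_re_le_norm s
      have := neg_abs_le s.re
      linarith
    calc (2 : ℝ) ^ (1 - s.re) ≤ 2 ^ (1 + ‖s‖) := Real.rpow_le_rpow_of_exponent_le (by norm_num) h5
      _ = 2 * 2 ^ ‖s‖ := by rw [Real.rpow_add (by norm_num), Real.rpow_one]
      _ ≤ 2 * Real.exp ‖s‖ := by
        have h6 : (2 : ℝ) ≤ Real.exp 1 := by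
          have := Real.add_one_le_exp (1 : ℝ)
          linarith
        have h7 : (2 : ℝ) ^ ‖s‖ ≤ (Real.exp 1) ^ ‖s‖ :=
          Real.rpow_le_rpow (by norm_num) h6 (norm_nonneg _)
        rw [← Real.exp_mul, one_mul] at h7
        linarith
  have h8 : (1 : ℝ) ≤ Real.exp ‖s‖ := Real.one_le_exp (norm_nonneg _)
  calc ‖E1 s‖ ≤ ‖1 - (2 : ℂ) ^ (1 - s)‖ := h2
    _ ≤ ‖(1 : ℂ)‖ + ‖(2 : ℂ) ^ (1 - s)‖ := norm_sub_le _ _
    _ ≤ 3 * Real.exp ‖s‖ := by rw [norm_one, h3]; linarith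

private lemma order_aux {E G : ℂ → ℂ} (hE : Differentiable ℂ E) (hG : Differentiable ℂ G)
    (hEn : ∀ s, 1 ≤ ‖s - 1‖ → ‖E s‖ ≤ 3 * Real.exp ‖s‖) (m : ℕ)
    (ho : ∃ A C : ℝ, ∀ s, ‖G s‖ ≤ C * Real.exp (‖s‖ ^ A)) :
    ∃ A C : ℝ, ∀ s, ‖E s ^ m * G s‖ ≤ C * Real.exp (‖s‖ ^ A) := by
  obtain ⟨A0, C0, h0⟩ := ho
  have hC0 : 0 ≤ C0 := by
    by_contra hneg
    push Not at hneg
    have h1 := h0 0
    have h2 := norm_nonneg (G 0)
    have h3 := Real.exp_pos (‖(0 : ℂ)‖ ^ A0)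
    have h4 : C0 * Real.exp (‖(0 : ℂ)‖ ^ A0) < 0 := mul_neg_of_neg_of_pos hneg h3
    linarith
  set R : ℝ := m + 2 with hR
  have hcont : ContinuousOn (fun s => ‖E s ^ m * G s‖) (Metric.closedBall (0 : ℂ) R) := by
    apply Continuous.continuousOn
    have h1 := hE.continuous
    have h2 := hG.continuous
    fun_prop
  obtain ⟨B, hB⟩ := (isCompact_closedBall (0 : ℂ) R).bddAbove_image hcont
  refine ⟨max A0 1 + 1, max B (3 ^ m * C0), fun s => ?_⟩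
  rcases le_total ‖s‖ R with hs | hs
  · have h1 : ‖E s ^ m * G s‖ ≤ B := hB ⟨s, by simpa using hs, rfl⟩
    have h2 : 1 ≤ Real.exp (‖s‖ ^ (max A0 1 + 1)) :=
      Real.one_le_exp (Real.rpow_nonneg (norm_nonneg _) _)
    have h3 : 0 ≤ max B (3 ^ m * C0) := le_max_of_le_right (by positivity)
    calc ‖E s ^ m * G s‖ ≤ max B (3 ^ m * C0) := h1.trans (le_max_left _ _)
      _ ≤ _ := le_mul_of_one_le_right h3 h2
  · have hx : (m : ℝ) + 2 ≤ ‖s‖ := hs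
    have hm0 : (0 : ℝ) ≤ m := Nat.cast_nonneg m
    have hx1 : 1 ≤ ‖s - 1‖ := by
      have := norm_sub_norm_le s 1
      rw [norm_one] at this
      linarith
    have h1 := hEn s hx1
    have h2 : ‖E s ^ m * G s‖ ≤ (3 * Real.exp ‖s‖) ^ m * (C0 * Real.exp (‖s‖ ^ A0)) := by
      rw [norm_mul, norm_pow]
      exact mul_le_mul (pow_le_pow_left₀ (norm_nonneg _) h1 m) (h0 s) (norm_nonneg _)
        (by positivity)
    have h3 : (3 * Real.exp ‖s‖) ^ m * (C0 * Real.exp (‖s‖ ^ A0)) =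
        3 ^ m * C0 * Real.exp (m * ‖s‖ + ‖s‖ ^ A0) := by
      rw [mul_pow, ← Real.exp_nat_mul, Real.exp_add]
      ring
    have h4 : m * ‖s‖ + ‖s‖ ^ A0 ≤ ‖s‖ ^ (max A0 1 + 1) := by
      have hpos : 0 < ‖s‖ := by linarith
      have h5 : ‖s‖ ^ A0 ≤ ‖s‖ ^ (max A0 1) :=
        Real.rpow_le_rpow_of_exponent_le (by linarith) (le_max_left _ _)
      have h6 : ‖s‖ ≤ ‖s‖ ^ (max A0 1) := by
        calc ‖s‖ = ‖s‖ ^ (1 : ℝ) := (Real.rpow_one _).symm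
          _ ≤ _ := Real.rpow_le_rpow_of_exponent_le (by linarith) (le_max_right _ _)
      rw [Real.rpow_add hpos, Real.rpow_one]
      have h7 : (0 : ℝ) ≤ ‖s‖ ^ (max A0 1) := by positivity
      calc m * ‖s‖ + ‖s‖ ^ A0 ≤ m * ‖s‖ ^ (max A0 1) + ‖s‖ ^ (max A0 1) := by
            gcongr
        _ = ‖s‖ ^ (max A0 1) * (m + 1) := by ring
        _ ≤ ‖s‖ ^ (max A0 1) * ‖s‖ := by
            apply mul_le_mul_of_nonneg_left _ h7
            linarith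
    calc ‖E s ^ m * G s‖ ≤ 3 ^ m * C0 * Real.exp (m * ‖s‖ + ‖s‖ ^ A0) := h2.trans h3.le
      _ ≤ 3 ^ m * C0 * Real.exp (‖s‖ ^ (max A0 1 + 1)) := by
          apply mul_le_mul_of_nonneg_left _ (by positivity)
          exact Real.exp_le_exp.mpr h4
      _ ≤ _ := by
          apply mul_le_mul_of_nonneg_right (le_max_right _ _) (Real.exp_pos _).le

theorem exists_two {a : ℕ → ℂ} {F G : ℂ → ℂ} {m : ℕ} {Q : ℝ} {r : ℕ} {lam : Fin r → ℝ}
    {mu : Fin r → ℂ} {ε : ℂ} (h : Dat a F G m Q lam mu ε) :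
    ∃ (c : ℕ → ℂ) (H : ℂ → ℂ), Differentiable ℂ H ∧
      (∃ A C : ℝ, ∀ s, ‖H s‖ ≤ C * Real.exp (‖s‖ ^ A)) ∧
      (∀ s : ℂ, 1 < s.re → LSeriesSummable c s) ∧
      (∀ s : ℂ, 1 < s.re → H s = LSeries c s) ∧
      (∀ s : ℂ, s ≠ 1 → H s = (1 - (2 : ℂ) ^ (1 - s)) ^ m * F s) := by
  obtain ⟨c, hc, hcL⟩ := exists_coef h.sum m
  refine ⟨c, fun s => E1 s ^ m * G s, (E1_diff.pow m).mul h.diff,
    order_aux E1_diff h.diff (fun s hs => E1_norm hs) m h.order, hc, fun s hs => ?_,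
    fun s hs => ?_⟩
  · have hs1 : s ≠ 1 := by
      rintro rfl
      simp at hs
    beta_reduce
    rw [hcL s hs, h.GF s hs1, ← h.eqL s hs, ← E1_eq s, mul_pow]
    ring
  · beta_reduce
    rw [h.GF s hs, ← E1_eq s, mul_pow]
    ring

end Pool.Agent.H26.WFa
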