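import Pool.Agent.H26.WFa.Lin
import Pool.Agent.H26.WFa.EC
import Pool.Agent.H26.WFa.EC2
import Pool.Agent.H26.WFa.Two
import Pool.Agent.H11.Selberg.Growth

/-!
# WFa/Dg1: there is no element of degree in (0, 1)

PROOF. Let `L = ∑ lam j`, `0 < L < 1/2`, `c`, `H` from `exists_two`, `A0` from `line_lower`.
Take `A = A0 + (L + A0 + 2) / (1 - 2 L)`, so that `L - (1 - 2 L) A ≤ -A0 - 2`. On `Re s = -A`:
`‖H s‖ ≤ (1 + 2 ^ (1 + A)) ^ m ‖F s‖ ≤ C |t| ^ ((1 + 2 A) L)` (`line_upper`), so by `coeff_decay`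
with `κ = (1 + 2 A) L`: `‖c N‖ ≤ C N ^ (-A0 - 2)`. `LSeries_eq_everywhere` with `σ = -A0`,
`δ = 1`: on `Re s = -A0` the function `H` is bounded (by `∑ ‖c n‖ n ^ A0`). But
`‖1 - 2 ^ (1 - s)‖ ≥ 2 ^ (1 + A0) - 1 ≥ 1` there, so
`‖H (-A0 + it)‖ ≥ ‖F (-A0 + it)‖ ≥ c |t| ^ ((1 + 2 A0) L)`, unbounded.
-/

set_option autoImplicit false

namespace Pool.Agent.H26.WFa

open Complex Pool.Agent.H11.Selberg

private theorem two_norm (B t : ℝ) : ‖(2 : ℂ) ^ (1 - (-(B : ℂ) + t * I))‖ = 2 ^ (1 + B) := by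
  have h2 : ((2 : ℝ) : ℂ) = 2 := by norm_num
  rw [← h2, Complex.norm_cpow_eq_rpow_re_of_pos (by norm_num)]
  congr 1
  simp

theorem no_small_degree {a : ℕ → ℂ} {F G : ℂ → ℂ} {m : ℕ} {Q : ℝ} {r : ℕ} {lam : Fin r → ℝ}
    {mu : Fin r → ℂ} {ε : ℂ} (h : Dat a F G m Q lam mu ε) (h0 : 0 < ∑ j, lam j)
    (h1 : ∑ j, lam j < 1 / 2) : False := by
  obtain ⟨c, H, hH, hord, hcs, hHL, hHF⟩ := exists_two h
  obtain ⟨A0, hA0, hlow⟩ := line_lower h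
  have hup := line_upper h
  generalize ∑ j, lam j = L at h0 h1 hlow hup
  have hpos : 0 < 1 - 2 * L := by linarith
  obtain ⟨A, hA⟩ : ∃ A : ℝ, A = A0 + (L + A0 + 2) / (1 - 2 * L) := ⟨_, rfl⟩
  have hApos : 0 < A := by rw [hA]; positivity
  have hexp : (1 + 2 * A) * L - A ≤ -A0 - 1 - 1 := by
    have e1 : (1 - 2 * L) * ((L + A0 + 2) / (1 - 2 * L)) = L + A0 + 2 := by field_simp
    have e2 := mul_pos hpos hA0
    have e3 : (1 - 2 * L) * A = (1 - 2 * L) * A0 + (L + A0 + 2) := by rw [hA, mul_add, e1]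
    linarith
  have hne : ∀ B t : ℝ, 0 < B → (-(B : ℂ) + t * I) ≠ 1 := by
    intro B t hB h2
    have := congrArg Complex.re h2
    simp at this
    linarith
  obtain ⟨C, T, hT, hup⟩ := hup A hApos
  have hb : ∃ C T : ℝ, ∀ t : ℝ, T ≤ |t| → ‖H (-A + t * I)‖ ≤ C * |t| ^ ((1 + 2 * A) * L) := by
    refine ⟨(1 + 2 ^ (1 + A)) ^ m * C, T, fun t ht => ?_⟩
    rw [hHF _ (hne A t hApos), norm_mul, norm_pow, mul_assoc]
    apply mul_le_mul _ (hup t ht) (norm_nonneg _) (by positivity)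
    apply pow_le_pow_left₀ (norm_nonneg _)
    refine (norm_sub_le _ _).trans ?_
    rw [two_norm, norm_one]
  obtain ⟨C1, hC1⟩ := coeff_decay c H hH hord hcs hHL A ((1 + 2 * A) * L) hApos (by positivity) hb
  have hev := LSeries_eq_everywhere c H hH hcs hHL (-A0) ⟨|C1|, 1, one_pos, fun N hN => by
    have hN1 : (1 : ℝ) ≤ N := by exact_mod_cast hN
    refine (hC1 N hN).trans ?_
    apply mul_le_mul (le_abs_self _) _ (by positivity) (abs_nonneg _)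
    exact Real.rpow_le_rpow_of_exponent_le hN1 hexp⟩
  obtain ⟨c0, T0, hc0, hT0, hlo⟩ := hlow A0 le_rfl
  obtain ⟨K, hK⟩ : ∃ K : ℝ, ∀ t : ℝ, ‖H (-A0 + t * I)‖ ≤ K := by
    refine ⟨∑' n, ‖LSeries.term c ((-A0 : ℝ) : ℂ) n‖, fun t => ?_⟩
    have e1 := (hev (-A0 + t * I) (by simp)).2
    have e2 := (hev ((-A0 : ℝ) : ℂ) (by simp)).1
    rw [e1]
    have e3 : (-(A0 : ℂ) + t * I).re = -A0 := by simp
    have e4 := LSeries_norm_le c (-(A0 : ℂ) + t * I) (by rw [e3]; exact e2)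
    rw [e3] at e4
    exact e4
  -- choose a large `t`
  have hE : 0 < (1 + 2 * A0) * L := by positivity
  have htend := (tendsto_rpow_atTop hE).const_mul_atTop hc0
  obtain ⟨t, ht1, ht2⟩ := ((htend.eventually_gt_atTop K).and
    (Filter.eventually_ge_atTop T0)).exists
  have ht0 : 0 < t := lt_of_lt_of_le hT0 ht2
  have habs : |t| = t := abs_of_pos ht0
  have e1 := hlo t (by rw [habs]; exact ht2)
  rw [habs] at e1
  have e2 := hK t
  rw [hHF _ (hne A0 t hA0), norm_mul, norm_pow] at e2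
  have e3 : 1 ≤ ‖1 - (2 : ℂ) ^ (1 - (-(A0 : ℂ) + t * I))‖ := by
    have e4 := norm_sub_norm_le ((2 : ℂ) ^ (1 - (-(A0 : ℂ) + t * I))) 1
    rw [two_norm, norm_one, norm_sub_rev] at e4
    have e5 : (2 : ℝ) ≤ 2 ^ (1 + A0) := by
      calc (2 : ℝ) = 2 ^ (1 : ℝ) := by simp
        _ ≤ 2 ^ (1 + A0) := Real.rpow_le_rpow_of_exponent_le (by norm_num) (by linarith)
    linarith
  have e4 : ‖F (-(A0 : ℂ) + t * I)‖ ≤
      ‖1 - (2 : ℂ) ^ (1 - (-(A0 : ℂ) + t * I))‖ ^ m * ‖F (-(A0 : ℂ) + t * I)‖ :=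
    le_mul_of_one_le_left (norm_nonneg _) (one_le_pow₀ e3)
  linarith

end Pool.Agent.H26.WFa
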