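import Pool.Agent.H26.WFa.Bmp
import Pool.Agent.H26.WFa.BmI

/-!
# WFa/EC1: the coefficient as an integral on Re s = 2

PROOF. Put `W = mellin (wN N)`. Insert `H = ∑ c n n ^ (-(2 + it))` into
`(1 / 2π) ∫ H(2 + it) W(2 + it) dt`, exchange sum and integral
(`∑ ‖c n‖ n ^ (-2) ∫ ‖W(2 + it)‖ dt < ∞`; `integral_tsum` or
`hasSum_integral_of_summable_integral_norm`; integrability of `W` on the line from `mel_bound`
with `B = 0` and `B = 2`), use `mel_inv` at `x = n ≥ 1` and `wN_nat`.
-/

set_option autoImplicit false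

namespace Pool.Agent.H26.WFa

open Complex

theorem EC1_int (N : ℕ) (hN : 1 ≤ N) :
    MeasureTheory.Integrable (fun t : ℝ => mellin (wN N) (2 + t * I)) := by
  obtain ⟨C0, hC0, h0⟩ := mel_bound 0 2 2
  obtain ⟨C2, hC2, h2⟩ := mel_bound 2 2 2
  have hcont : Continuous (fun t : ℝ => mellin (wN N) (2 + t * I)) := by
    have := (mel_diff N hN).continuous
    exact this.comp (by fun_prop)
  set K : ℝ := C0 * (N : ℝ) ^ ((2 : ℝ) - 1 + (0 : ℕ)) + C2 * (N : ℝ) ^ ((2 : ℝ) - 1 + (2 : ℕ)) with hK
  have hint : MeasureTheory.Integrable (fun t : ℝ => K * (1 + t ^ 2)⁻¹) :=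
    integrable_inv_one_add_sq.const_mul K
  refine hint.mono' hcont.aestronglyMeasurable (Filter.Eventually.of_forall fun t => ?_)
  have e0 := h0 N hN (2 + t * I) (by simp) (by simp)
  have e2 := h2 N hN (2 + t * I) (by simp) (by simp)
  have hre : (2 + (t : ℂ) * I).re = 2 := by simp
  have him : (2 + (t : ℂ) * I).im = t := by simp
  rw [hre, him] at e0 e2
  rw [pow_zero, mul_one] at e0
  rw [sq_abs] at e2
  have hpos : (0 : ℝ) < 1 + t ^ 2 := by positivity
  rw [← div_eq_mul_inv, le_div_iff₀ hpos, mul_add, mul_one]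
  rw [hK]
  exact add_le_add e0 e2

theorem coeff_int (c : ℕ → ℂ) (H : ℂ → ℂ)
    (hs : ∀ s : ℂ, 1 < s.re → LSeriesSummable c s) (hL : ∀ s : ℂ, 1 < s.re → H s = LSeries c s)
    (N : ℕ) (hN : 1 ≤ N) :
    c N = (1 / (2 * Real.pi) : ℝ) * ∫ t : ℝ, H (2 + t * I) * mellin (wN N) (2 + t * I) := by
  have hW := EC1_int N hN
  have hre : ∀ t : ℝ, (2 + (t : ℂ) * I).re = 2 := fun t => by simp
  set F : ℕ → ℝ → ℂ := fun n t => LSeries.term c (2 + t * I) n * mellin (wN N) (2 + t * I) with hF
  -- the norm of a term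
  have hnorm : ∀ (n : ℕ) (t : ℝ), ‖LSeries.term c (2 + t * I) n‖ = ‖LSeries.term c 2 n‖ := by
    intro n t
    rcases Nat.eq_zero_or_pos n with rfl | hn
    · simp
    · rw [LSeries.norm_term_eq, LSeries.norm_term_eq]
      simp
  have htermc : ∀ n : ℕ, Continuous (fun t : ℝ => LSeries.term c (2 + t * I) n) := by
    intro n
    rcases Nat.eq_zero_or_pos n with rfl | hn
    · simpa using continuous_const
    · have : (fun t : ℝ => LSeries.term c (2 + t * I) n) =
          fun t : ℝ => c n / (n : ℂ) ^ (2 + t * I) := by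
        funext t
        rw [LSeries.term_of_ne_zero (by omega)]
      rw [this]
      have hn0 : (n : ℂ) ≠ 0 := by exact_mod_cast (by omega : n ≠ 0)
      refine continuous_const.div ?_ (fun t => ?_)
      · exact Continuous.const_cpow (by fun_prop) (Or.inl hn0)
      · rw [Complex.cpow_def_of_ne_zero hn0]
        exact Complex.exp_ne_zero _
  have hFint : ∀ n, MeasureTheory.Integrable (F n) := by
    intro n
    have : MeasureTheory.Integrable (fun t : ℝ => ‖LSeries.term c 2 n‖ * ‖mellin (wN N) (2 + t * I)‖) :=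
      hW.norm.const_mul _
    refine this.mono' ?_ (Filter.Eventually.of_forall fun t => ?_)
    · exact ((htermc n).aestronglyMeasurable).mul hW.aestronglyMeasurable
    · simp only [hF]
      rw [norm_mul, hnorm]
  have hnint : ∀ n, ∫ t : ℝ, ‖F n t‖ = ‖LSeries.term c 2 n‖ *
      ∫ t : ℝ, ‖mellin (wN N) (2 + t * I)‖ := by
    intro n
    rw [← MeasureTheory.integral_const_mul]
    refine MeasureTheory.integral_congr_ae (Filter.Eventually.of_forall fun t => ?_)
    simp only [hF]
    rw [norm_mul, hnorm]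
  have hsum : Summable (fun n => ∫ t : ℝ, ‖F n t‖) := by
    have h2 : Summable (fun n => ‖LSeries.term c 2 n‖) := (hs 2 (by norm_num)).norm
    simp only [hnint]
    exact h2.mul_right _
  have key := MeasureTheory.hasSum_integral_of_summable_integral_norm hFint hsum
  -- right hand side
  have hR : (∫ t : ℝ, ∑' n, F n t) = ∫ t : ℝ, H (2 + t * I) * mellin (wN N) (2 + t * I) := by
    refine MeasureTheory.integral_congr_ae (Filter.Eventually.of_forall fun t => ?_)
    simp only [hF]
    rw [tsum_mul_right, hL _ (by rw [hre]; norm_num)]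
    rfl
  -- left hand side
  have hl : ∀ n : ℕ, ∫ t : ℝ, F n t = if n = N then (2 * Real.pi : ℝ) * c N else 0 := by
    intro n
    rcases Nat.eq_zero_or_pos n with rfl | hn
    · have : (0 : ℕ) ≠ N := by omega
      simp [hF, this]
    · have hm := mel_inv N hN 2 (n : ℝ) (by exact_mod_cast hn)
      rw [wN_nat] at hm
      unfold mellinInv at hm
      have hpi : (0 : ℝ) < 2 * Real.pi := by positivity
      have h1 : ∫ t : ℝ, F n t = c n * ∫ y : ℝ, ((n : ℝ) : ℂ) ^ (-(((2 : ℝ) : ℂ) + y * I)) •
          mellin (wN N) (((2 : ℝ) : ℂ) + y * I) := by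
        rw [← MeasureTheory.integral_const_mul]
        refine MeasureTheory.integral_congr_ae (Filter.Eventually.of_forall fun t => ?_)
        simp only [hF]
        rw [LSeries.term_of_ne_zero (by omega), Complex.cpow_neg, smul_eq_mul]
        push_cast
        ring
      rw [h1]
      have h2 : (∫ y : ℝ, ((n : ℝ) : ℂ) ^ (-(((2 : ℝ) : ℂ) + y * I)) •
          mellin (wN N) (((2 : ℝ) : ℂ) + y * I)) =
          ((2 * Real.pi : ℝ) : ℂ) * (if n = N then 1 else 0) := by
        rw [← hm, Complex.real_smul]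
        rw [← mul_assoc, ← Complex.ofReal_mul]
        rw [mul_one_div_cancel hpi.ne']
        simp
      rw [h2]
      split_ifs with hnN
      · subst hnN; ring
      · ring
  simp only [hl] at key
  have hv : HasSum (fun n => if n = N then ((2 * Real.pi : ℝ) : ℂ) * c N else 0)
      (((2 * Real.pi : ℝ) : ℂ) * c N) := hasSum_ite_eq N _
  have := hv.unique key
  rw [hR] at this
  rw [← this, ← mul_assoc, ← Complex.ofReal_mul]
  have hpi : (2 * Real.pi : ℝ) ≠ 0 := by positivity
  rw [one_div_mul_cancel hpi]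
  simp

end Pool.Agent.H26.WFa
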