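import Pool.Agent.H26.WFa.Feq
import Pool.Agent.H26.WFa.EC
import Pool.Agent.H26.WFa.EC2
import Pool.Agent.H11.Selberg.Growth

/-!
# WFa/En0: degree 0 (no Gamma factor): F is entire and its coefficients decay rapidly

PROOF of `ent0`. `feq_all` with `r = 0` is
`(-s) ^ m * G s = ε Q ^ (1 - 2 s) (s - 1) ^ m * conj (G (1 - conj s))`. Near `s = 1`,
`R s = ε Q ^ (1 - 2 s) conj (G (1 - conj s)) / (-s) ^ m` is holomorphic and equals `F s` for
`s ≠ 1`; put `H s = F s` for `s ≠ 1`, `H 1 = R 1`. Away from `1`: `H = G / (s - 1) ^ m`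
is holomorphic. Order: `‖H s‖ ≤ ‖G s‖` for `‖s - 1‖ ≥ 1`, bounded on `‖s - 1‖ ≤ 1`.
The equation `H s = ε Q ^ (1 - 2 s) conj (H (1 - conj s))` holds for `s ≠ 0, 1` and by continuity
everywhere.
PROOF of `decay0`: `coeff_decay` with `κ = 0`: `‖H (-A + it)‖ = Q ^ (1 + 2 A) ‖H (1 + A + it)‖`
is bounded.
-/

set_option autoImplicit false

namespace Pool.Agent.H26.WFa

open Complex Pool.Agent.H11.Selberg

private theorem refl_diff {G : ℂ → ℂ} (hG : Differentiable ℂ G) :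
    Differentiable ℂ (fun s => (starRingEnd ℂ) (G (1 - (starRingEnd ℂ) s))) := by
  intro s
  have h1 : DifferentiableAt ℂ (fun z => G (1 - z)) ((starRingEnd ℂ) s) :=
    (hG _).comp _ (by fun_prop)
  have h2 := h1.conj_conj
  rw [Complex.conj_conj] at h2
  exact h2

theorem ent0 {a : ℕ → ℂ} {F G : ℂ → ℂ} {m : ℕ} {Q : ℝ} {lam : Fin 0 → ℝ}
    {mu : Fin 0 → ℂ} {ε : ℂ} (h : Dat a F G m Q lam mu ε) :
    ∃ H : ℂ → ℂ, Differentiable ℂ H ∧ (∃ A C : ℝ, ∀ s, ‖H s‖ ≤ C * Real.exp (‖s‖ ^ A)) ∧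
      (∀ s : ℂ, s ≠ 1 → H s = F s) ∧
      (∀ s : ℂ, H s = ε * (Q : ℂ) ^ (1 - 2 * s) * (starRingEnd ℂ) (H (1 - (starRingEnd ℂ) s))) := by
  have hQ : (Q : ℂ) ≠ 0 := by exact_mod_cast h.Qpos.ne'
  have hfe : ∀ s : ℂ, (-s) ^ m * G s =
      ε * (Q : ℂ) ^ (1 - 2 * s) * (s - 1) ^ m * (starRingEnd ℂ) (G (1 - (starRingEnd ℂ) s)) := by
    intro s
    have := feq_all h s
    simpa using this
  obtain ⟨R, hR⟩ : ∃ R : ℂ → ℂ, R = fun s => ε * (Q : ℂ) ^ (1 - 2 * s) *
      (starRingEnd ℂ) (G (1 - (starRingEnd ℂ) s)) / (-s) ^ m := ⟨_, rfl⟩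
  obtain ⟨H, hH⟩ : ∃ H : ℂ → ℂ, H = Function.update F 1 (R 1) := ⟨_, rfl⟩
  have hHF : ∀ s : ℂ, s ≠ 1 → H s = F s := by
    intro s hs
    rw [hH, Function.update_of_ne hs]
  have hH1 : H 1 = R 1 := by rw [hH, Function.update_self]
  have hFG : ∀ s : ℂ, s ≠ 1 → F s = G s / (s - 1) ^ m := by
    intro s hs
    have h1 : (s - 1) ^ m ≠ 0 := pow_ne_zero _ (sub_ne_zero.mpr hs)
    rw [h.GF s hs, mul_div_cancel_left₀ _ h1]
  have hQd : Differentiable ℂ (fun s : ℂ => (Q : ℂ) ^ (1 - 2 * s)) := by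
    intro s
    exact DifferentiableAt.const_cpow (by fun_prop) (Or.inl hQ)
  have hRd : DifferentiableAt ℂ R 1 := by
    rw [hR]
    have h1 := refl_diff h.diff
    refine DifferentiableAt.div ?_ (by fun_prop) (by simp)
    exact ((hQd 1).const_mul ε).mul (h1 1)
  have hHR : ∀ s : ℂ, s ≠ 0 → H s = R s := by
    intro s hs0
    rcases eq_or_ne s 1 with rfl | hs
    · exact hH1
    · rw [hHF s hs, hFG s hs, hR]
      have h1 : (s - 1) ^ m ≠ 0 := pow_ne_zero _ (sub_ne_zero.mpr hs)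
      have h2 : (-s) ^ m ≠ 0 := pow_ne_zero _ (neg_ne_zero.mpr hs0)
      simp only
      rw [div_eq_div_iff h1 h2]
      linear_combination hfe s
  have hd : Differentiable ℂ H := by
    intro s
    rcases eq_or_ne s 1 with rfl | hs
    · refine hRd.congr_of_eventuallyEq ?_
      filter_upwards [isOpen_ne.mem_nhds (one_ne_zero : (1 : ℂ) ≠ 0)] with z hz
      exact hHR z hz
    · have h1 : DifferentiableAt ℂ (fun z => G z / (z - 1) ^ m) s := by
        refine DifferentiableAt.div (h.diff s) (by fun_prop) ?_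
        exact pow_ne_zero _ (sub_ne_zero.mpr hs)
      refine h1.congr_of_eventuallyEq ?_
      filter_upwards [isOpen_ne.mem_nhds hs] with z hz
      rw [hHF z hz, hFG z hz]
  refine ⟨H, hd, ?_, hHF, ?_⟩
  · obtain ⟨A, C, hC⟩ := h.order
    obtain ⟨M, hM⟩ := (isCompact_closedBall (1 : ℂ) 1).exists_bound_of_continuousOn
      hd.continuous.continuousOn
    refine ⟨A, |C| + |M|, fun s => ?_⟩
    have hexp : 0 < Real.exp (‖s‖ ^ A) := Real.exp_pos _
    rcases le_total ‖s - 1‖ 1 with hs | hs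
    · have h1 := hM s (by rw [Metric.mem_closedBall, dist_eq_norm]; exact hs)
      have h2 : 1 ≤ Real.exp (‖s‖ ^ A) := Real.one_le_exp (Real.rpow_nonneg (norm_nonneg _) _)
      calc ‖H s‖ ≤ |M| := h1.trans (le_abs_self _)
        _ ≤ |M| * Real.exp (‖s‖ ^ A) := le_mul_of_one_le_right (abs_nonneg _) h2
        _ ≤ (|C| + |M|) * Real.exp (‖s‖ ^ A) := by
          apply mul_le_mul_of_nonneg_right _ hexp.le
          linarith [abs_nonneg C]
    · have hs1 : s ≠ 1 := by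
        rintro rfl
        simp at hs
        linarith
      have h1 : ‖H s‖ ≤ ‖G s‖ := by
        rw [hHF s hs1, hFG s hs1, norm_div, norm_pow]
        exact div_le_self (norm_nonneg _) (one_le_pow₀ hs)
      calc ‖H s‖ ≤ C * Real.exp (‖s‖ ^ A) := h1.trans (hC s)
        _ ≤ (|C| + |M|) * Real.exp (‖s‖ ^ A) := by
          apply mul_le_mul_of_nonneg_right _ hexp.le
          linarith [le_abs_self C, abs_nonneg M]
  · -- the functional equation by continuity
    have hcont : Continuous (fun s : ℂ => ε * (Q : ℂ) ^ (1 - 2 * s) *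
        (starRingEnd ℂ) (H (1 - (starRingEnd ℂ) s))) :=
      ((hQd.continuous.const_mul ε).mul (refl_diff hd).continuous)
    have hdense : Dense (({0, 1} : Set ℂ)ᶜ) :=
      Set.Countable.dense_compl ℂ (Set.Finite.countable (by simp))
    have key := Continuous.ext_on hdense hd.continuous hcont (fun s hs => by
      simp only [Set.mem_compl_iff, Set.mem_insert_iff, Set.mem_singleton_iff, not_or] at hs
      obtain ⟨hs0, hs1⟩ := hs
      have hs' : 1 - (starRingEnd ℂ) s ≠ 1 := by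
        intro h1
        apply hs0
        have h2 : (starRingEnd ℂ) s = 0 := by linear_combination -h1
        simpa using h2
      rw [hHF s hs1, hHF _ hs', hFG s hs1]
      have h1 : (s - 1) ^ m ≠ 0 := pow_ne_zero _ (sub_ne_zero.mpr hs1)
      have h2 : (-s) ^ m ≠ 0 := pow_ne_zero _ (neg_ne_zero.mpr hs0)
      have h3 : (starRingEnd ℂ) (G (1 - (starRingEnd ℂ) s)) =
          (-s) ^ m * (starRingEnd ℂ) (F (1 - (starRingEnd ℂ) s)) := by
        rw [h.GF _ hs', map_mul, map_pow, map_sub, map_sub, map_one, Complex.conj_conj]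
        congr 2
        ring
      have h4 := hfe s
      rw [h3] at h4
      rw [div_eq_iff h1]
      apply mul_left_cancel₀ h2
      linear_combination h4)
    intro s
    exact congrFun key s

theorem decay0 {a : ℕ → ℂ} {F G : ℂ → ℂ} {m : ℕ} {Q : ℝ} {lam : Fin 0 → ℝ}
    {mu : Fin 0 → ℂ} {ε : ℂ} (h : Dat a F G m Q lam mu ε) :
    ∃ H : ℂ → ℂ, Differentiable ℂ H ∧ (∀ s : ℂ, s ≠ 1 → H s = F s) ∧
      (∀ s : ℂ, H s = ε * (Q : ℂ) ^ (1 - 2 * s) * (starRingEnd ℂ) (H (1 - (starRingEnd ℂ) s))) ∧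
      (∀ s : ℂ, LSeriesSummable a s ∧ H s = LSeries a s) := by
  obtain ⟨H, hd, hord, hHF, hfe⟩ := ent0 h
  have hHL : ∀ s : ℂ, 1 < s.re → H s = LSeries a s := by
    intro s hs
    have hs1 : s ≠ 1 := by
      rintro rfl
      simp at hs
    rw [hHF s hs1, h.eqL s hs]
  refine ⟨H, hd, hHF, hfe, fun s => ?_⟩
  obtain ⟨A, hA1, hA2⟩ : ∃ A : ℝ, 1 ≤ A ∧ 2 - s.re ≤ A := ⟨max 1 (2 - s.re), le_max_left _ _,
    le_max_right _ _⟩
  have hb : ∃ C T : ℝ, ∀ t : ℝ, T ≤ |t| → ‖H (-A + t * I)‖ ≤ C * |t| ^ (0 : ℝ) := by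
    refine ⟨Q ^ (1 + 2 * A) * ∑' n : ℕ, ‖LSeries.term a ((1 + A : ℝ) : ℂ) n‖, 0, fun t _ => ?_⟩
    have e1 : (1 : ℂ) - (starRingEnd ℂ) (-(A : ℂ) + t * I) = ((1 + A : ℝ) : ℂ) + t * I := by
      rw [map_add, map_neg, map_mul, Complex.conj_ofReal, Complex.conj_ofReal, Complex.conj_I]
      push_cast
      ring
    have e2 : ((((1 + A : ℝ) : ℂ) + t * I)).re = 1 + A := by simp
    rw [hfe, e1, norm_mul, norm_mul, h.eps, one_mul, Complex.norm_conj,
      Complex.norm_cpow_eq_rpow_re_of_pos h.Qpos, Real.rpow_zero, mul_one]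
    have e3 : (1 - 2 * (-(A : ℂ) + t * I)).re = 1 + 2 * A := by simp
    rw [e3, hHL _ (by rw [e2]; linarith)]
    apply mul_le_mul_of_nonneg_left _ (Real.rpow_nonneg h.Qpos.le _)
    have e4 := LSeries_norm_le a (((1 + A : ℝ) : ℂ) + t * I)
      (by rw [e2]; exact h.sum _ (by rw [Complex.ofReal_re]; linarith))
    rw [e2] at e4
    exact e4
  obtain ⟨C1, hC1⟩ := coeff_decay a H hd hord h.sum hHL A 0 (by linarith) le_rfl hb
  refine LSeries_eq_everywhere a H hd h.sum hHL s.re ⟨|C1|, 1, one_pos, fun N hN => ?_⟩ s le_rfl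
  have hN1 : (1 : ℝ) ≤ N := by exact_mod_cast hN
  refine (hC1 N hN).trans ?_
  apply mul_le_mul (le_abs_self _) _ (by positivity) (abs_nonneg _)
  exact Real.rpow_le_rpow_of_exponent_le hN1 (by linarith)

end Pool.Agent.H26.WFa
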