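import Pool.Agent.H26.WFa.En0
import Pool.Agent.H97.WD.Dz4

/-!
# WFa/Lg0: degree 0: F = 1

PROOF (Liouville; `H97/WD/Dz1..Dz4`, `Loc`). By `decay0` the series `L s = LSeries a s` converges
absolutely for all `s` and `L s = ε Q ^ (1 - 2 s) L' (1 - s)`, `L'` the series of `conj a`. Let
`M = ⌊Q ^ 2⌋`. The entire function `ε Q ^ (1 - 2 s) L'_{> M} (1 - s) = L s - ε Q ^ (1 - 2 s)
L'_{≤ M} (1 - s)` is bounded for `Re s ≥ 0` (second form) and for `Re s ≤ 0` (first form), and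
tends to `0` at `- ∞`: it is `0`, so `a n = 0` for `n > M`. The two sides of the functional
equation at `- ∞` give `M = Q ^ 2` and `‖a M‖ = Q`. The local factor at `p` is a polynomial with
the logarithm `∑ b (p ^ l) X ^ l` holomorphic for `|X| < p ^ (- θ)`, so its roots are at least
`p ^ (- θ)` and its leading coefficient is at most `p ^ (θ L)`: `Q = ‖a M‖ ≤ M ^ θ`, `θ < 1/2`,
so `M = 1`.
-/

set_option autoImplicit false

namespace Pool.Agent.H26.WFa

open Complex Pool.Agent.H11.Selberg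

theorem degree_zero {a : ℕ → ℂ} {F G : ℂ → ℂ} {m : ℕ} {Q : ℝ} {lam : Fin 0 → ℝ}
    {mu : Fin 0 → ℂ} {ε : ℂ} (hS : IsSelberg a F) (h : Dat a F G m Q lam mu ε) :
    ∀ s : ℂ, 1 < s.re → F s = 1 := by
  obtain ⟨H, _, _, hfe, hL⟩ := decay0 h
  refine Pool.Agent.H97.WD.deg_zero a F hS (fun s => (hL s).1) Q h.Qpos ε h.eps fun s => ?_
  rw [Pool.Agent.H97.WD.conj_LSeries, ← (hL s).2, ← (hL _).2, hfe s]
  congr 3
  simp

end Pool.Agent.H26.WFa
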