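import Pool.Agent.H26.WFa.Dg1
import Pool.Agent.H26.WFa.Lg0
import Pool.Agent.H26.WFa.Add

/-!
# WFa/Fac: factorisation into primitive elements

PROOF. By induction on `n`: for all `(a, F)` in the Selberg class with data `lam`,
`∑ lam j < n / 2`, the statement holds. If `F s = 1` for all `Re s > 1` take the empty list. If
`(a, F)` is primitive take the list with one element. Otherwise `F = F1 F2` on `Re s > 1` with
`F1, F2` in the class and not constant `1`; with data `lam1`, `lam2` (`exists_dat`) and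
`∑ lam = ∑ lam1 + ∑ lam2` (`deg_add`), `∑ lam_i ≥ 1/2` (`half_le`), so
`∑ lam_i ≤ ∑ lam - 1/2 < (n - 1) / 2`; append the two lists.
`half_le`: if `∑ lam = 0` then `r = 0` (`lam j > 0`) and `degree_zero`; if `0 < ∑ lam < 1/2`
then `no_small_degree`.
-/

set_option autoImplicit false

namespace Pool.Agent.H26.WFa

open Complex Pool.Agent.H11.Selberg

theorem half_le {a : ℕ → ℂ} {F G : ℂ → ℂ} {m : ℕ} {Q : ℝ} {r : ℕ} {lam : Fin r → ℝ}
    {mu : Fin r → ℂ} {ε : ℂ} (hS : IsSelberg a F) (h : Dat a F G m Q lam mu ε)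
    (h1 : ∃ s : ℂ, 1 < s.re ∧ F s ≠ 1) : 1 / 2 ≤ ∑ j, lam j := by
  by_contra hcon
  push Not at hcon
  rcases Nat.eq_zero_or_pos r with hr | hr
  · subst hr
    obtain ⟨s, hs, hne⟩ := h1
    exact hne (degree_zero hS h s hs)
  · have : Nonempty (Fin r) := ⟨⟨0, hr⟩⟩
    exact no_small_degree h (Finset.sum_pos (fun j _ => h.lampos j) Finset.univ_nonempty) hcon

private lemma fac_aux (n : ℕ) : ∀ (a : ℕ → ℂ) (F G : ℂ → ℂ) (m : ℕ) (Q : ℝ) (r : ℕ)
    (lam : Fin r → ℝ) (mu : Fin r → ℂ) (ε : ℂ), IsSelberg a F → Dat a F G m Q lam mu ε →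
    ∑ j, lam j < (n : ℝ) / 2 →
    ∃ L : List ((ℕ → ℂ) × (ℂ → ℂ)), (∀ x ∈ L, IsPrimitive x.1 x.2) ∧
      ∀ s : ℂ, 1 < s.re → F s = (L.map (fun x => x.2 s)).prod := by
  induction n with
  | zero =>
    intro a F G m Q r lam mu ε hS hD hlt
    exfalso
    have : 0 ≤ ∑ j, lam j := Finset.sum_nonneg fun j _ => (hD.lampos j).le
    simp at hlt
    linarith
  | succ n ih =>
    intro a F G m Q r lam mu ε hS hD hlt
    by_cases h1 : ∃ s : ℂ, 1 < s.re ∧ F s ≠ 1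
    swap
    · refine ⟨[], by simp, fun s hs => ?_⟩
      by_contra hne
      exact h1 ⟨s, hs, by simpa using hne⟩
    by_cases hP : IsPrimitive a F
    · refine ⟨[(a, F)], ?_, fun s hs => by simp⟩
      intro x hx
      rw [List.mem_singleton] at hx
      rw [hx]
      exact hP
    have hsplit : ∃ (a1 a2 : ℕ → ℂ) (F1 F2 : ℂ → ℂ), IsSelberg a1 F1 ∧ IsSelberg a2 F2 ∧
        (∀ s : ℂ, 1 < s.re → F s = F1 s * F2 s) ∧ (∃ s : ℂ, 1 < s.re ∧ F1 s ≠ 1) ∧
        ∃ s : ℂ, 1 < s.re ∧ F2 s ≠ 1 := by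
      by_contra hcon
      apply hP
      refine ⟨hS, h1, ?_⟩
      intro a1 a2 F1 F2 g1 g2 h12
      by_contra hc
      push Not at hc
      exact hcon ⟨a1, a2, F1, F2, g1, g2, h12, hc.1, hc.2⟩
    obtain ⟨a1, a2, F1, F2, g1, g2, h12, n1, n2⟩ := hsplit
    obtain ⟨G1, m1, Q1, r1, lam1, mu1, ε1, D1⟩ := exists_dat g1
    obtain ⟨G2, m2, Q2, r2, lam2, mu2, ε2, D2⟩ := exists_dat g2
    have hadd := deg_add hD D1 D2 h12
    have k1 := half_le g1 D1 n1
    have k2 := half_le g2 D2 n2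
    push_cast at hlt
    obtain ⟨L1, hL1, p1⟩ := ih a1 F1 G1 m1 Q1 r1 lam1 mu1 ε1 g1 D1 (by linarith)
    obtain ⟨L2, hL2, p2⟩ := ih a2 F2 G2 m2 Q2 r2 lam2 mu2 ε2 g2 D2 (by linarith)
    refine ⟨L1 ++ L2, ?_, fun s hs => ?_⟩
    · intro x hx
      rcases List.mem_append.1 hx with hx | hx
      · exact hL1 x hx
      · exact hL2 x hx
    · rw [List.map_append, List.prod_append, ← p1 s hs, ← p2 s hs, h12 s hs]

theorem exists_primitive_factorisation (a : ℕ → ℂ) (F : ℂ → ℂ) (h : IsSelberg a F) :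
    ∃ L : List ((ℕ → ℂ) × (ℂ → ℂ)), (∀ x ∈ L, IsPrimitive x.1 x.2) ∧
      ∀ s : ℂ, 1 < s.re → F s = (L.map (fun x => x.2 s)).prod := by
  obtain ⟨G, m, Q, r, lam, mu, ε, D⟩ := exists_dat h
  obtain ⟨n, hn⟩ := exists_nat_gt (2 * ∑ j, lam j)
  exact fac_aux n a F G m Q r lam mu ε h D (by linarith)

end Pool.Agent.H26.WFa
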