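import Pool.Agent.H26.WFa.Defs

/-!
# WFa/Feq: the functional equation on the whole plane, in entire form

PROOF. Both sides are entire functions of `s` (`Complex.differentiable_one_div_Gamma`;
`s ↦ conj (G (1 - conj s))` is entire). On the strip `0 < Re s < 1` all Gamma factors are
nonzero, `G s = (s - 1) ^ m * F s` and `conj (G (1 - conj s)) = (-s) ^ m * conj (F (1 - conj s))`,
so the identity is `h.feq` divided by `Q ^ s`, by `∏ Gamma (lam j * s + mu j)` and by
`∏ Gamma (lam j * (1 - s) + conj (mu j))` (`Complex.Gamma_conj`), times `(-s) ^ m (s - 1) ^ m`.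
Identity theorem (`AnalyticOnNhd.eqOn_of_preconnected_of_eventuallyEq` or
`AnalyticOnNhd.eq_of_frequently_eq`) gives it for all `s`.
-/

set_option autoImplicit false

namespace Pool.Agent.H26.WFa

open Complex Pool.Agent.H11.Selberg

private theorem dconj {G : ℂ → ℂ} (hG : Differentiable ℂ G) :
    Differentiable ℂ fun s : ℂ => (starRingEnd ℂ) (G (1 - (starRingEnd ℂ) s)) := by
  have h1 : Differentiable ℂ fun s : ℂ => G (1 - s) :=
    hG.comp (differentiable_const (1 : ℂ) |>.sub differentiable_id)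
  intro s
  have h2 : DifferentiableAt ℂ (⇑(starRingEnd ℂ) ∘ (fun s : ℂ => G (1 - s)) ∘ ⇑(starRingEnd ℂ)) s :=
    differentiableAt_conj_conj_iff.2 (h1 _)
  exact h2

private theorem strip {a : ℕ → ℂ} {F G : ℂ → ℂ} {m : ℕ} {Q : ℝ} {r : ℕ} {lam : Fin r → ℝ}
    {mu : Fin r → ℂ} {ε : ℂ} (h : Dat a F G m Q lam mu ε) {s : ℂ} (h0 : 0 < s.re) (h1 : s.re < 1) :
    (-s) ^ m * G s * ∏ j, (Gamma (lam j * (1 - s) + (starRingEnd ℂ) (mu j)))⁻¹ =
      ε * (Q : ℂ) ^ (1 - 2 * s) * (s - 1) ^ m * (starRingEnd ℂ) (G (1 - (starRingEnd ℂ) s)) *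
        ∏ j, (Gamma (lam j * s + mu j))⁻¹ := by
  have hQ : (Q : ℂ) ≠ 0 := by
    exact_mod_cast h.Qpos.ne'
  have hs1 : s ≠ 1 := by
    rintro rfl
    simp at h1
  have hs0 : 1 - (starRingEnd ℂ) s ≠ 1 := by
    intro h2
    have h3 : (starRingEnd ℂ) s = 0 := by linear_combination -h2
    have h4 : s = 0 := by simpa using h3
    rw [h4] at h0
    simp at h0
  have hA : ∏ j, Gamma (lam j * s + mu j) ≠ 0 := by
    refine Finset.prod_ne_zero_iff.2 fun j _ => Gamma_ne_zero_of_re_pos ?_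
    have h2 := h.lampos j
    have h3 := h.mure j
    have h4 : ((lam j : ℂ) * s + mu j).re = lam j * s.re + (mu j).re := by simp
    rw [h4]
    have h5 := mul_pos h2 h0
    linarith
  have hB : ∏ j, Gamma (lam j * (1 - s) + (starRingEnd ℂ) (mu j)) ≠ 0 := by
    refine Finset.prod_ne_zero_iff.2 fun j _ => Gamma_ne_zero_of_re_pos ?_
    have h2 := h.lampos j
    have h3 := h.mure j
    have h4 : ((lam j : ℂ) * (1 - s) + (starRingEnd ℂ) (mu j)).re = lam j * (1 - s.re) + (mu j).re := by simp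
    rw [h4]
    have h5 := mul_pos h2 (sub_pos.2 h1)
    linarith
  have hE := h.feq s h0 h1
  unfold completed at hE
  rw [map_mul, map_mul, map_prod] at hE
  have hQc : (starRingEnd ℂ) ((Q : ℂ) ^ (1 - (starRingEnd ℂ) s)) = (Q : ℂ) ^ (1 - s) := by
    have h2 : (Q : ℂ) ^ (1 - s) = (Q : ℂ) ^ ((starRingEnd ℂ) (1 - (starRingEnd ℂ) s)) := by
      congr 1
      simp
    rw [h2, cpow_conj _ _ (by rw [arg_ofReal_of_nonneg h.Qpos.le]; exact Real.pi_pos.ne), conj_ofReal]
  have hGc : ∏ j, (starRingEnd ℂ) (Gamma ((lam j : ℂ) * (1 - (starRingEnd ℂ) s) + mu j)) =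
      ∏ j, Gamma (lam j * (1 - s) + (starRingEnd ℂ) (mu j)) := by
    refine Finset.prod_congr rfl fun j _ => ?_
    rw [← Gamma_conj]
    congr 1
    simp
  rw [hQc, hGc] at hE
  rw [h.GF s hs1, h.GF _ hs0, Finset.prod_inv_distrib, Finset.prod_inv_distrib]
  have hQs : (Q : ℂ) ^ s ≠ 0 := by
    rw [Ne, cpow_eq_zero_iff]
    exact fun h2 => hQ h2.1
  have hQ2 : (Q : ℂ) ^ (1 - 2 * s) = (Q : ℂ) ^ (1 - s) * ((Q : ℂ) ^ s)⁻¹ := by
    rw [← cpow_neg, ← cpow_add _ _ hQ]
    congr 1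
    ring
  have hc : (starRingEnd ℂ) ((1 - (starRingEnd ℂ) s - 1) ^ m * F (1 - (starRingEnd ℂ) s)) =
      (-s) ^ m * (starRingEnd ℂ) (F (1 - (starRingEnd ℂ) s)) := by
    rw [map_mul, map_pow]
    congr 2
    simp
  rw [hc, hQ2]
  clear hQ2 hc hGc hQc
  generalize (∏ j, Gamma ((lam j : ℂ) * s + mu j)) = A at hA hE ⊢
  generalize (∏ j, Gamma ((lam j : ℂ) * (1 - s) + (starRingEnd ℂ) (mu j))) = B at hB hE ⊢
  generalize (Q : ℂ) ^ s = q at hQs hE ⊢
  generalize (Q : ℂ) ^ (1 - s) = q' at hE ⊢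
  generalize (starRingEnd ℂ) (F (1 - (starRingEnd ℂ) s)) = f at hE ⊢
  have hE2 : F s * B⁻¹ = ε * q' * q⁻¹ * f * A⁻¹ := by
    field_simp
    linear_combination hE
  linear_combination ((s - 1) ^ m * (-s) ^ m) * hE2

theorem feq_all {a : ℕ → ℂ} {F G : ℂ → ℂ} {m : ℕ} {Q : ℝ} {r : ℕ} {lam : Fin r → ℝ}
    {mu : Fin r → ℂ} {ε : ℂ} (h : Dat a F G m Q lam mu ε) (s : ℂ) :
    (-s) ^ m * G s * ∏ j, (Gamma (lam j * (1 - s) + (starRingEnd ℂ) (mu j)))⁻¹ =
      ε * (Q : ℂ) ^ (1 - 2 * s) * (s - 1) ^ m * (starRingEnd ℂ) (G (1 - (starRingEnd ℂ) s)) *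
        ∏ j, (Gamma (lam j * s + mu j))⁻¹ := by
  have hQ : (Q : ℂ) ≠ 0 := by
    exact_mod_cast h.Qpos.ne'
  have d1 : Differentiable ℂ fun s : ℂ => (-s) ^ m * G s *
      ∏ j, (Gamma (lam j * (1 - s) + (starRingEnd ℂ) (mu j)))⁻¹ := by
    refine Differentiable.mul ((differentiable_id.neg.pow m).mul h.diff) ?_
    refine Differentiable.fun_finsetProd fun j _ => ?_
    exact differentiable_one_div_Gamma.comp
      (((differentiable_const (1 : ℂ)).sub differentiable_id).const_mul (lam j : ℂ) |>.add_const _)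
  have d2 : Differentiable ℂ fun s : ℂ => ε * (Q : ℂ) ^ (1 - 2 * s) * (s - 1) ^ m *
      (starRingEnd ℂ) (G (1 - (starRingEnd ℂ) s)) * ∏ j, (Gamma (lam j * s + mu j))⁻¹ := by
    refine Differentiable.mul (Differentiable.mul (Differentiable.mul (Differentiable.const_mul ?_ _) ?_) (dconj h.diff)) ?_
    · exact Differentiable.const_cpow ((differentiable_const (1 : ℂ)).sub (differentiable_id.const_mul (2 : ℂ))) (Or.inl hQ)
    · exact (differentiable_id.sub_const (1 : ℂ)).pow m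
    · refine Differentiable.fun_finsetProd fun j _ => ?_
      exact differentiable_one_div_Gamma.comp ((differentiable_id.const_mul (lam j : ℂ)).add_const _)
  have h3 := AnalyticOnNhd.eq_of_eventuallyEq (𝕜 := ℂ)
    (fun z _ => d1.analyticAt z) (fun z _ => d2.analyticAt z) (z₀ := (1 / 2 : ℂ)) (by
      have h4 : {z : ℂ | 0 < z.re ∧ z.re < 1} ∈ nhds (1 / 2 : ℂ) := by
        refine IsOpen.mem_nhds ?_ ?_
        · exact (isOpen_lt continuous_const continuous_re).inter (isOpen_lt continuous_re continuous_const)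
        · constructor <;> norm_num
      filter_upwards [h4] with z hz
      exact strip h hz.1 hz.2)
  exact congrFun h3 s

end Pool.Agent.H26.WFa
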