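import Pool.Agent.H26.WFa.Fac
import Pool.Agent.H26.WFa.CSq

/-!
# WFa/Fin: if Selberg's asymptotic holds for all primitive elements, then `S a x` is at most a
multiple of `log log x` for every element of the Selberg class
-/

set_option autoImplicit false

namespace Pool.Agent.H26.WFa

open Complex Pool.Agent.H11.Selberg

theorem sum_bound_of_primitive (a : ℕ → ℂ) (F : ℂ → ℂ) (h : IsSelberg a F)
    (hQ : ∀ (a' : ℕ → ℂ) (F' : ℂ → ℂ), IsPrimitive a' F' →
      ∃ C : ℝ, ∀ x : ℝ, 3 ≤ x → |S a' x - Real.log (Real.log x)| ≤ C) :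
    ∃ K C : ℝ, ∀ x : ℝ, 3 ≤ x → S a x ≤ K * Real.log (Real.log x) + C := by
  obtain ⟨L, hL, hF⟩ := exists_primitive_factorisation a F h
  have h1 : ∀ M : List ((ℕ → ℂ) × (ℂ → ℂ)), (∀ x ∈ M, IsPrimitive x.1 x.2) →
      ∃ C : ℝ, ∀ x : ℝ, 3 ≤ x →
        (M.map (fun y => S y.1 x)).sum ≤ M.length * Real.log (Real.log x) + C := by
    intro M
    induction M with
    | nil =>
      intro _
      exact ⟨0, fun x _ => by simp⟩
    | cons y M ih =>
      intro hM
      obtain ⟨C, hC⟩ := ih (fun x hx => hM x (List.mem_cons_of_mem _ hx))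
      obtain ⟨D, hD⟩ := hQ y.1 y.2 (hM y List.mem_cons_self)
      refine ⟨C + D, fun x hx => ?_⟩
      have e1 := hC x hx
      have e2 := (abs_le.mp (hD x hx)).2
      rw [List.map_cons, List.sum_cons, List.length_cons]
      push_cast
      linarith
  obtain ⟨C, hC⟩ := h1 L hL
  refine ⟨L.length * L.length, L.length * C, fun x hx => ?_⟩
  have e1 := S_le a F h L (fun y hy => (hL y hy).1) hF x
  have e2 := mul_le_mul_of_nonneg_left (hC x hx) (Nat.cast_nonneg (α := ℝ) L.length)
  linarith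

end Pool.Agent.H26.WFa
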