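import Mathlib
import Pool.Agent.H30.WD.Sti

/-!
# WFa/GamT: two-sided bound for the quotient of Gamma functions

From `sti` (helper60) with `σ1 = -A`, `σ2 = 1 + A` and `Γ (conj z) = conj (Γ z)` (helper1).
-/

set_option autoImplicit false

namespace Pool.Agent.H26.WFa

open Complex

theorem gamma_two_sided (l : ℝ) (hl : 0 < l) (mu : ℂ) (A : ℝ) :
    ∃ c C T : ℝ, 0 < c ∧ 0 < T ∧ ∀ t : ℝ, T ≤ |t| →
      Gamma (l * (-A + t * I) + mu) ≠ 0 ∧
      Gamma (l * (1 + A - t * I) + (starRingEnd ℂ) mu) ≠ 0 ∧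
      c * |t| ^ (l * (1 + 2 * A)) * ‖Gamma (l * (-A + t * I) + mu)‖ ≤
        ‖Gamma (l * (1 + A - t * I) + (starRingEnd ℂ) mu)‖ ∧
      ‖Gamma (l * (1 + A - t * I) + (starRingEnd ℂ) mu)‖ ≤
        C * |t| ^ (l * (1 + 2 * A)) * ‖Gamma (l * (-A + t * I) + mu)‖ := by
  obtain ⟨c, C, T, hc, _, hT, h⟩ := Pool.Agent.H30.WD.sti l hl mu (-A) (1 + A)
  refine ⟨c, C, T, hc, by linarith, ?_⟩
  intro t ht
  obtain ⟨h1, h2, h3⟩ := h t ht
  have ht0 : 0 < |t| := by linarith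
  have e1 : (l : ℂ) * (((-A : ℝ) : ℂ) + t * I) + mu = l * (-A + t * I) + mu := by
    push_cast
    ring
  have e2 : (l : ℂ) * (1 + A - t * I) + (starRingEnd ℂ) mu =
      (starRingEnd ℂ) ((l : ℂ) * (((1 + A : ℝ) : ℂ) + t * I) + mu) := by
    simp only [map_add, map_mul, Complex.conj_ofReal, Complex.conj_I]
    push_cast
    ring
  have e3 : l * (1 + A - -A) = l * (1 + 2 * A) := by ring
  rw [e1] at h1 h2 h3
  rw [e3] at h2 h3
  have e4 : ‖Gamma (l * (1 + A - t * I) + (starRingEnd ℂ) mu)‖ =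
      ‖Gamma ((l : ℂ) * (((1 + A : ℝ) : ℂ) + t * I) + mu)‖ := by
    rw [e2, Complex.Gamma_conj]
    simp
  have hpos : 0 < ‖Gamma (l * (1 + A - t * I) + (starRingEnd ℂ) mu)‖ := by
    rw [e4]
    refine lt_of_lt_of_le ?_ h2
    have : 0 < ‖Gamma ((l : ℂ) * (-A + t * I) + mu)‖ := norm_pos_iff.mpr h1
    positivity
  exact ⟨h1, norm_pos_iff.mp hpos, by rw [e4]; exact h2, by rw [e4]; exact h3⟩

end Pool.Agent.H26.WFa
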