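import Pool.Agent.H26.WFa.Feq
import Pool.Agent.H26.WFa.GamT

/-!
# WFa/Lin: the size of F on the vertical line Re s = -A

PROOF. `feq_all` at `s = -A + t I` (`|t|` large, so that the Gamma values are nonzero,
`gamma_two_sided` for every `j`): taking norms,
`‖s‖ ^ m * ‖G s‖ * ∏ ‖Gamma (lam j (1 - s) + conj mu j)‖⁻¹ =
  Q ^ (1 + 2 A) * ‖s - 1‖ ^ m * ‖G (1 + A + t I)‖ * ∏ ‖Gamma (lam j s + mu j)‖⁻¹`,
and `‖G s‖ = ‖s - 1‖ ^ m ‖F s‖`, `‖G (1 + A + t I)‖ = ‖s‖ ^ m ‖F (1 + A + t I)‖`, hence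
`‖F s‖ = Q ^ (1 + 2 A) * ‖F (1 + A + t I)‖ * ∏ ‖Gamma (lam j (1 - s) + conj mu j)‖ /
‖Gamma (lam j s + mu j)‖`; the product is between two multiples of
`|t| ^ ((1 + 2 A) ∑ lam j)`. Upper bound: `‖F (1 + A + t I)‖ ≤ ∑ ‖a n‖ n ^ (-(1 + A))`.
Lower bound: for `A ≥ A0`, `∑_(n ≥ 2) ‖a n‖ n ^ (-(1 + A)) ≤ 1/2` (`LSeries.tendsto_atTop`
for the coefficients `‖a n‖`, limit `‖a 1‖ = 1`), so `‖F (1 + A + t I)‖ ≥ 1/2`.
-/

set_option autoImplicit false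

namespace Pool.Agent.H26.WFa

open Complex Pool.Agent.H11.Selberg

/-- the functional equation in norm, cleared of denominators -/
private lemma lin_eq {a : ℕ → ℂ} {F G : ℂ → ℂ} {m : ℕ} {Q : ℝ} {r : ℕ} {lam : Fin r → ℝ}
    {mu : Fin r → ℂ} {ε : ℂ} (h : Dat a F G m Q lam mu ε) (A t : ℝ) (ht : t ≠ 0)
    (h1 : ∀ j, Gamma (lam j * (-A + t * I) + mu j) ≠ 0)
    (h2 : ∀ j, Gamma (lam j * (1 + A - t * I) + (starRingEnd ℂ) (mu j)) ≠ 0) :
    ‖F (-A + t * I)‖ * ∏ j, ‖Gamma (lam j * (-A + t * I) + mu j)‖ =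
      Q ^ (1 + 2 * A) * ‖F (1 + A + t * I)‖ *
        ∏ j, ‖Gamma (lam j * (1 + A - t * I) + (starRingEnd ℂ) (mu j))‖ := by
  have e := feq_all h (-A + t * I)
  set s : ℂ := -A + t * I with hs
  have hsim : s.im = t := by simp [hs]
  have hs0 : s ≠ 0 := by
    intro h0
    rw [h0] at hsim
    exact ht (by simpa using hsim.symm)
  have hs1 : s ≠ 1 := by
    intro h0
    rw [h0] at hsim
    exact ht (by simpa using hsim.symm)
  have hw : 1 - (starRingEnd ℂ) s = 1 + A + t * I := by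
    simp [hs]
    ring
  set w : ℂ := 1 + A + t * I with hwd
  have hwim : w.im = t := by simp [hwd]
  have hw1 : w ≠ 1 := by
    intro h0
    rw [h0] at hwim
    exact ht (by simpa using hwim.symm)
  have hws : w - 1 = - (starRingEnd ℂ) s := by
    rw [← hw]; ring
  have hwn : ‖w - 1‖ = ‖s‖ := by
    rw [hws, norm_neg, Complex.norm_conj]
  have h1s : (1 : ℂ) - s = 1 + A - t * I := by
    rw [hs]; ring
  rw [hw, h1s, h.GF s hs1, h.GF w hw1] at e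
  have en := congrArg norm e
  have hQn : ‖(Q : ℂ) ^ (1 - 2 * s)‖ = Q ^ (1 + 2 * A) := by
    rw [Complex.norm_cpow_eq_rpow_re_of_pos h.Qpos]
    congr 1
    simp [hs]
  simp only [norm_mul, norm_pow, norm_neg, Complex.norm_conj, norm_prod, norm_inv, h.eps, hQn,
    hwn, one_mul] at en
  have hsn : 0 < ‖s‖ := norm_pos_iff.mpr hs0
  have hs1n : 0 < ‖s - 1‖ := norm_pos_iff.mpr (sub_ne_zero.mpr hs1)
  rw [Finset.prod_inv_distrib, Finset.prod_inv_distrib] at en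
  have hp1 : ∏ j, ‖Gamma (lam j * s + mu j)‖ ≠ 0 :=
    Finset.prod_ne_zero_iff.mpr fun j _ => norm_ne_zero_iff.mpr (h1 j)
  have hp2 : ∏ j, ‖Gamma (lam j * (1 + A - t * I) + (starRingEnd ℂ) (mu j))‖ ≠ 0 :=
    Finset.prod_ne_zero_iff.mpr fun j _ => norm_ne_zero_iff.mpr (h2 j)
  have hsm : ‖s‖ ^ m ≠ 0 := pow_ne_zero _ hsn.ne'
  have hs1m : ‖s - 1‖ ^ m ≠ 0 := pow_ne_zero _ hs1n.ne'
  generalize ∏ j, ‖Gamma (lam j * s + mu j)‖ = P1 at en hp1 ⊢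
  generalize ∏ j, ‖Gamma (lam j * (1 + A - t * I) + (starRingEnd ℂ) (mu j))‖ = P2 at en hp2 ⊢
  have hP : P2 * P2⁻¹ = 1 := mul_inv_cancel₀ hp2
  have hP' : P1 * P1⁻¹ = 1 := mul_inv_cancel₀ hp1
  have key : (‖s‖ ^ m * ‖s - 1‖ ^ m) * (‖F s‖ * P1) =
      (‖s‖ ^ m * ‖s - 1‖ ^ m) * (Q ^ (1 + 2 * A) * ‖F w‖ * P2) := by
    calc (‖s‖ ^ m * ‖s - 1‖ ^ m) * (‖F s‖ * P1)
        = (‖s‖ ^ m * (‖s - 1‖ ^ m * ‖F s‖) * P2⁻¹) * P1 * P2 := by
          linear_combination (-(‖s‖ ^ m * ‖s - 1‖ ^ m) * (‖F s‖ * P1)) * hP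
      _ = (Q ^ (1 + 2 * A) * ‖s - 1‖ ^ m * (‖s‖ ^ m * ‖F w‖) * P1⁻¹) * P1 * P2 := by
          rw [en]
      _ = (‖s‖ ^ m * ‖s - 1‖ ^ m) * (Q ^ (1 + 2 * A) * ‖F w‖ * P2) := by
          linear_combination ((‖s‖ ^ m * ‖s - 1‖ ^ m) * (Q ^ (1 + 2 * A) * ‖F w‖ * P2)) * hP'
  exact mul_left_cancel₀ (mul_ne_zero hsm hs1m) key

/-- the sum of the norms of the terms -/
private lemma norm_sum {a : ℕ → ℂ} {F G : ℂ → ℂ} {m : ℕ} {Q : ℝ} {r : ℕ} {lam : Fin r → ℝ}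
    {mu : Fin r → ℂ} {ε : ℂ} (h : Dat a F G m Q lam mu ε) (A t : ℝ) (hA : 0 < A) :
    ‖F (1 + A + t * I)‖ ≤ ∑' n, ‖LSeries.term a (1 + A) n‖ ∧
    2 - ∑' n, ‖LSeries.term a (1 + A) n‖ ≤ ‖F (1 + A + t * I)‖ := by
  set w : ℂ := 1 + A + t * I with hwd
  have hre : w.re = 1 + A := by simp [hwd]
  have hre' : ((1 : ℂ) + A).re = 1 + A := by simp
  have hnt : ∀ n, ‖LSeries.term a (1 + A) n‖ = ‖LSeries.term a w n‖ := by
    intro n
    rw [LSeries.norm_term_eq, LSeries.norm_term_eq, hre, hre']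
  simp_rw [hnt]
  have hsum : Summable (LSeries.term a w) := h.sum w (by rw [hre]; linarith)
  have hsn : Summable fun n => ‖LSeries.term a w n‖ := hsum.norm
  rw [h.eqL w (by rw [hre]; linarith), LSeries]
  have ht1 : LSeries.term a w 1 = 1 := by
    rw [LSeries.term_of_ne_zero one_ne_zero, h.one]
    simp
  refine ⟨norm_tsum_le_tsum_norm hsn, ?_⟩
  have e1 := hsum.tsum_eq_add_tsum_ite 1
  have e2 := hsn.tsum_eq_add_tsum_ite 1
  rw [ht1] at e1 e2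
  have hle : ‖∑' n, ite (n = 1) 0 (LSeries.term a w n)‖ ≤
      ∑' n, ite (n = 1) 0 ‖LSeries.term a w n‖ := by
    have hc : ∀ n, ‖ite (n = 1) 0 (LSeries.term a w n)‖ = ite (n = 1) 0 ‖LSeries.term a w n‖ := by
      intro n
      split_ifs <;> simp
    have hs' : Summable fun n => ‖ite (n = 1) 0 (LSeries.term a w n)‖ := by
      refine Summable.of_nonneg_of_le (fun n => norm_nonneg _) (fun n => ?_) hsn
      rw [hc]
      split_ifs
      · positivity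
      · exact le_rfl
    calc _ ≤ ∑' n, ‖ite (n = 1) 0 (LSeries.term a w n)‖ := norm_tsum_le_tsum_norm hs'
      _ = _ := tsum_congr hc
  have h3 : (1 : ℝ) ≤ ‖∑' n, LSeries.term a w n‖ + ‖∑' n, ite (n = 1) 0 (LSeries.term a w n)‖ := by
    have h4 : (1 : ℂ) = (∑' n, LSeries.term a w n) - ∑' n, ite (n = 1) 0 (LSeries.term a w n) := by
      rw [e1]; ring
    calc (1 : ℝ) = ‖(1 : ℂ)‖ := by simp
      _ = ‖(∑' n, LSeries.term a w n) - ∑' n, ite (n = 1) 0 (LSeries.term a w n)‖ := by rw [← h4]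
      _ ≤ _ := norm_sub_le _ _
  rw [norm_one] at e2
  linarith

/-- the sum of the norms tends to one -/
private lemma sum_tendsto {a : ℕ → ℂ} {F G : ℂ → ℂ} {m : ℕ} {Q : ℝ} {r : ℕ} {lam : Fin r → ℝ}
    {mu : Fin r → ℂ} {ε : ℂ} (h : Dat a F G m Q lam mu ε) :
    ∃ A0 : ℝ, 0 < A0 ∧ ∀ A : ℝ, A0 ≤ A → ∑' n, ‖LSeries.term a (1 + A) n‖ ≤ 3 / 2 := by
  set b : ℕ → ℂ := fun n => ((‖a n‖ : ℝ) : ℂ) with hb
  have hterm : ∀ (x : ℝ) (n : ℕ), LSeries.term b x n = ((‖LSeries.term a x n‖ : ℝ) : ℂ) := by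
    intro x n
    rcases Nat.eq_zero_or_pos n with rfl | hn
    · simp
    · rw [LSeries.norm_term_eq, if_neg hn.ne', LSeries.term_of_ne_zero hn.ne', hb]
      push_cast
      rw [Complex.ofReal_cpow (Nat.cast_nonneg n)]
      simp
  have hbs : LSeriesSummable b (2 : ℝ) := by
    have h1 : Summable (LSeries.term a (2 : ℝ)) := h.sum _ (by simp)
    refine Summable.of_norm ?_
    have : (fun n => ‖LSeries.term b (2 : ℝ) n‖) = fun n => ‖LSeries.term a (2 : ℝ) n‖ := by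
      funext n
      rw [hterm]
      simp
    rw [this]
    exact h1.norm
  have habs : LSeries.abscissaOfAbsConv b < ⊤ := lt_of_le_of_lt
    (LSeriesSummable.abscissaOfAbsConv_le hbs) (EReal.coe_lt_top _)
  have ht := LSeries.tendsto_atTop habs
  have hb1 : b 1 = 1 := by simp [hb, h.one]
  rw [hb1] at ht
  have hval : ∀ x : ℝ, LSeries b x = ((∑' n, ‖LSeries.term a x n‖ : ℝ) : ℂ) := by
    intro x
    rw [LSeries, Complex.ofReal_tsum]
    exact tsum_congr (hterm x)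
  simp_rw [hval] at ht
  have ht' : Filter.Tendsto (fun x : ℝ => ∑' n, ‖LSeries.term a x n‖) Filter.atTop (nhds 1) := by
    have := (Complex.continuous_re.tendsto _).comp ht
    simpa [Function.comp_def] using this
  obtain ⟨X, hX⟩ := Filter.eventually_atTop.mp
    (ht'.eventually (gt_mem_nhds (show (1 : ℝ) < 3 / 2 by norm_num)))
  refine ⟨max X 1, by positivity, fun A hA => ?_⟩
  have := hX (1 + A) (by linarith [le_max_left X 1])
  push_cast at this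
  exact this.le

/-- the product of the powers -/
private lemma prod_pow {r : ℕ} (lam c g : Fin r → ℝ) (A x : ℝ) (hx : 0 < x) :
    ∏ j, (c j * x ^ (lam j * (1 + 2 * A)) * g j) =
      (∏ j, c j) * x ^ ((1 + 2 * A) * ∑ j, lam j) * ∏ j, g j := by
  rw [Finset.prod_mul_distrib, Finset.prod_mul_distrib, ← Real.rpow_sum_of_pos hx,
    ← Finset.sum_mul, mul_comm (∑ j, lam j)]

theorem line_upper {a : ℕ → ℂ} {F G : ℂ → ℂ} {m : ℕ} {Q : ℝ} {r : ℕ} {lam : Fin r → ℝ}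
    {mu : Fin r → ℂ} {ε : ℂ} (h : Dat a F G m Q lam mu ε) (A : ℝ) (hA : 0 < A) :
    ∃ C T : ℝ, 0 < T ∧ ∀ t : ℝ, T ≤ |t| →
      ‖F (-A + t * I)‖ ≤ C * |t| ^ ((1 + 2 * A) * ∑ j, lam j) := by
  have hg := fun j => gamma_two_sided (lam j) (h.lampos j) (mu j) A
  choose c C T hc hT hcT using hg
  refine ⟨Q ^ (1 + 2 * A) * (∑' n, ‖LSeries.term a (1 + A) n‖) * ∏ j, C j, 1 + ∑ j, T j,
    by have := Finset.sum_nonneg fun j (_ : j ∈ Finset.univ) => (hT j).le; linarith, ?_⟩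
  intro t ht
  have hTj : ∀ j, T j ≤ |t| := fun j => by
    have := Finset.single_le_sum (fun j _ => (hT j).le) (Finset.mem_univ j)
    linarith
  have ht1 : 0 < |t| := by
    have := Finset.sum_nonneg fun j (_ : j ∈ Finset.univ) => (hT j).le
    linarith
  have e := lin_eq h A t (abs_pos.mp ht1) (fun j => (hcT j t (hTj j)).1)
    (fun j => (hcT j t (hTj j)).2.1)
  have hP : 0 < ∏ j, ‖Gamma (lam j * (-A + t * I) + mu j)‖ :=
    Finset.prod_pos fun j _ => norm_pos_iff.mpr (hcT j t (hTj j)).1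
  have hu : ∏ j, ‖Gamma (lam j * (1 + A - t * I) + (starRingEnd ℂ) (mu j))‖ ≤
      (∏ j, C j) * |t| ^ ((1 + 2 * A) * ∑ j, lam j) *
        ∏ j, ‖Gamma (lam j * (-A + t * I) + mu j)‖ := by
    rw [← prod_pow lam C _ A |t| ht1]
    exact Finset.prod_le_prod (fun j _ => norm_nonneg _) fun j _ => (hcT j t (hTj j)).2.2.2
  have hM := (norm_sum h A t hA).1
  have hQ : 0 ≤ Q ^ (1 + 2 * A) := Real.rpow_nonneg h.Qpos.le _
  refine le_of_mul_le_mul_right ?_ hP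
  rw [e]
  calc Q ^ (1 + 2 * A) * ‖F (1 + A + t * I)‖ *
        ∏ j, ‖Gamma (lam j * (1 + A - t * I) + (starRingEnd ℂ) (mu j))‖
      ≤ Q ^ (1 + 2 * A) * (∑' n, ‖LSeries.term a (1 + A) n‖) *
        ((∏ j, C j) * |t| ^ ((1 + 2 * A) * ∑ j, lam j) *
          ∏ j, ‖Gamma (lam j * (-A + t * I) + mu j)‖) := by
        refine mul_le_mul (mul_le_mul_of_nonneg_left hM hQ) hu
          (Finset.prod_nonneg fun j _ => norm_nonneg _) ?_
        exact mul_nonneg hQ (tsum_nonneg fun n => norm_nonneg _)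
    _ = _ := by ring

theorem line_lower {a : ℕ → ℂ} {F G : ℂ → ℂ} {m : ℕ} {Q : ℝ} {r : ℕ} {lam : Fin r → ℝ}
    {mu : Fin r → ℂ} {ε : ℂ} (h : Dat a F G m Q lam mu ε) :
    ∃ A0 : ℝ, 0 < A0 ∧ ∀ A : ℝ, A0 ≤ A → ∃ c T : ℝ, 0 < c ∧ 0 < T ∧ ∀ t : ℝ, T ≤ |t| →
      c * |t| ^ ((1 + 2 * A) * ∑ j, lam j) ≤ ‖F (-A + t * I)‖ := by
  obtain ⟨A0, hA0, hs⟩ := sum_tendsto h
  refine ⟨A0, hA0, fun A hA => ?_⟩
  have hAp : 0 < A := lt_of_lt_of_le hA0 hA
  have hg := fun j => gamma_two_sided (lam j) (h.lampos j) (mu j) A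
  choose c C T hc hT hcT using hg
  have hQ : 0 < Q ^ (1 + 2 * A) := Real.rpow_pos_of_pos h.Qpos _
  have hcp : 0 < ∏ j, c j := Finset.prod_pos fun j _ => hc j
  refine ⟨Q ^ (1 + 2 * A) * (1 / 2) * ∏ j, c j, 1 + ∑ j, T j, by positivity,
    by have := Finset.sum_nonneg fun j (_ : j ∈ Finset.univ) => (hT j).le; linarith, ?_⟩
  intro t ht
  have hTj : ∀ j, T j ≤ |t| := fun j => by
    have := Finset.single_le_sum (fun j _ => (hT j).le) (Finset.mem_univ j)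
    linarith
  have ht1 : 0 < |t| := by
    have := Finset.sum_nonneg fun j (_ : j ∈ Finset.univ) => (hT j).le
    linarith
  have e := lin_eq h A t (abs_pos.mp ht1) (fun j => (hcT j t (hTj j)).1)
    (fun j => (hcT j t (hTj j)).2.1)
  have hP : 0 < ∏ j, ‖Gamma (lam j * (-A + t * I) + mu j)‖ :=
    Finset.prod_pos fun j _ => norm_pos_iff.mpr (hcT j t (hTj j)).1
  have hl : (∏ j, c j) * |t| ^ ((1 + 2 * A) * ∑ j, lam j) *
        ∏ j, ‖Gamma (lam j * (-A + t * I) + mu j)‖ ≤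
      ∏ j, ‖Gamma (lam j * (1 + A - t * I) + (starRingEnd ℂ) (mu j))‖ := by
    rw [← prod_pow lam c _ A |t| ht1]
    refine Finset.prod_le_prod (fun j _ => ?_) fun j _ => (hcT j t (hTj j)).2.2.1
    have := hc j
    positivity
  have hM : 1 / 2 ≤ ‖F (1 + A + t * I)‖ := by
    have := (norm_sum h A t hAp).2
    have := hs A hA
    linarith
  refine le_of_mul_le_mul_right ?_ hP
  rw [e]
  calc _ = Q ^ (1 + 2 * A) * (1 / 2) * ((∏ j, c j) * |t| ^ ((1 + 2 * A) * ∑ j, lam j) *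
        ∏ j, ‖Gamma (lam j * (-A + t * I) + mu j)‖) := by ring
    _ ≤ _ := by
        refine mul_le_mul (mul_le_mul_of_nonneg_left hM hQ.le) hl ?_ ?_
        · positivity
        · positivity

end Pool.Agent.H26.WFa
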