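import Mathlib

/-!
# WFa/Mea: mean values of absolutely convergent sums of exponentials, uniqueness

PROOF of `mean_value`. `(1/T) ∫_0^T ∑ x n exp(i w n t) dt = ∑ x n * (1/T) ∫_0^T exp(i w n t) dt`
(absolute convergence), each factor is bounded by `1` and tends to `1` if `w n = 0` and to `0`
otherwise; dominated convergence for sums (`tendsto_tsum_of_dominated_convergence`).
`exp_sum_unique`: apply it to `t ↦ exp(-i ω t) *` both sides.
-/

set_option autoImplicit false

namespace Pool.Agent.H26.WFa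

open Complex

private theorem norm_exp (w t : ℝ) : ‖cexp (w * t * I)‖ = 1 := by
  rw [show (w : ℂ) * t * I = ((w * t : ℝ) : ℂ) * I by push_cast; ring, norm_exp_ofReal_mul_I]

private theorem int_exp (w T : ℝ) (hw : w ≠ 0) :
    ∫ t in (0 : ℝ)..T, cexp (w * t * I) = (cexp (w * T * I) - 1) / (w * I) := by
  have h := integral_exp_mul_complex (a := 0) (b := T) (c := (w : ℂ) * I) (by simp [hw])
  rw [show (fun t : ℝ => cexp (w * t * I)) = fun t : ℝ => cexp (w * I * t) by
    funext t; ring_nf]
  rw [h]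
  congr 1
  rw [ofReal_zero, mul_zero, Complex.exp_zero]
  ring_nf

private theorem avg_bound (w T : ℝ) (hT : 0 < T) :
    ‖(T : ℂ)⁻¹ * ∫ t in (0 : ℝ)..T, cexp (w * t * I)‖ ≤ 1 := by
  rw [norm_mul, norm_inv, norm_real, Real.norm_of_nonneg hT.le]
  have h := intervalIntegral.norm_integral_le_of_norm_le_const (a := (0 : ℝ)) (b := T) (C := 1)
    (f := fun t : ℝ => cexp (w * t * I)) (fun t _ => (norm_exp w t).le)
  rw [one_mul, sub_zero, abs_of_pos hT] at h
  calc T⁻¹ * ‖∫ t in (0 : ℝ)..T, cexp (w * t * I)‖ ≤ T⁻¹ * T := by gcongr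
    _ = 1 := inv_mul_cancel₀ hT.ne'

private theorem avg_lim (w : ℝ) :
    Filter.Tendsto (fun T : ℝ => (T : ℂ)⁻¹ * ∫ t in (0 : ℝ)..T, cexp (w * t * I)) Filter.atTop
      (nhds (if w = 0 then 1 else 0)) := by
  split_ifs with hw
  · apply tendsto_const_nhds.congr'
    filter_upwards [Filter.eventually_gt_atTop 0] with T hT
    have hT' : (T : ℂ) ≠ 0 := by exact_mod_cast hT.ne'
    simp [hw, hT']
  · rw [tendsto_zero_iff_norm_tendsto_zero]
    have h0 : Filter.Tendsto (fun T : ℝ => T⁻¹ * (2 / |w|)) Filter.atTop (nhds 0) := by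
      have := (tendsto_inv_atTop_zero (𝕜 := ℝ)).mul_const (2 / |w|)
      rwa [zero_mul] at this
    apply squeeze_zero' (Filter.Eventually.of_forall fun T => norm_nonneg _) _ h0
    filter_upwards [Filter.eventually_gt_atTop 0] with T hT
    rw [int_exp w T hw, norm_mul, norm_inv, norm_real, Real.norm_of_nonneg hT.le, norm_div, norm_mul, norm_I,
      norm_real, mul_one, Real.norm_eq_abs]
    have h1 : ‖cexp (w * T * I) - 1‖ ≤ 2 := by
      calc ‖cexp (w * T * I) - 1‖ ≤ ‖cexp (w * T * I)‖ + ‖(1 : ℂ)‖ := norm_sub_le _ _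
        _ = 2 := by rw [norm_exp, norm_one]; norm_num
    gcongr

theorem mean_value (x : ℕ → ℂ) (w : ℕ → ℝ) (hx : Summable (fun n => ‖x n‖)) :
    Filter.Tendsto (fun T : ℝ => ((T : ℂ))⁻¹ * ∫ t in (0 : ℝ)..T, ∑' n, x n * cexp (w n * t * I))
      Filter.atTop (nhds (∑' n, if w n = 0 then x n else 0)) := by
  have h1 : ∀ T : ℝ, (T : ℂ)⁻¹ * ∫ t in (0 : ℝ)..T, ∑' n, x n * cexp (w n * t * I) =
      ∑' n, x n * ((T : ℂ)⁻¹ * ∫ t in (0 : ℝ)..T, cexp (w n * t * I)) := by
    intro T
    have h2 := intervalIntegral.hasSum_integral_of_dominated_convergence (a := (0 : ℝ)) (b := T)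
      (μ := MeasureTheory.volume)
      (F := fun n (t : ℝ) => x n * cexp (w n * t * I)) (f := fun t : ℝ => ∑' n, x n * cexp (w n * t * I))
      (fun n _ => ‖x n‖)
      (fun n => by
        apply Continuous.aestronglyMeasurable
        fun_prop)
      (fun n => Filter.Eventually.of_forall fun t _ => by
        rw [norm_mul, norm_exp, mul_one])
      (Filter.Eventually.of_forall fun t _ => hx)
      (by simp)
      (Filter.Eventually.of_forall fun t _ => by
        apply Summable.hasSum
        apply Summable.of_norm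
        apply hx.congr
        intro n
        rw [norm_mul, norm_exp, mul_one])
    rw [← h2.tsum_eq, ← tsum_mul_left]
    apply tsum_congr
    intro n
    rw [intervalIntegral.integral_const_mul]
    ring
  simp_rw [h1]
  apply tendsto_tsum_of_dominated_convergence hx
  · intro n
    have h2 := (avg_lim (w n)).const_mul (x n)
    rw [show (if w n = 0 then x n else 0) = x n * (if w n = 0 then 1 else 0) by split_ifs <;> simp]
    exact h2
  · filter_upwards [Filter.eventually_gt_atTop 0] with T hT n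
    rw [norm_mul]
    exact mul_le_of_le_one_right (norm_nonneg _) (avg_bound _ _ hT)

theorem exp_sum_unique (x y : ℕ → ℂ) (w v : ℕ → ℝ) (hx : Summable (fun n => ‖x n‖))
    (hy : Summable (fun n => ‖y n‖))
    (h : ∀ t : ℝ, ∑' n, x n * cexp (w n * t * I) = ∑' n, y n * cexp (v n * t * I)) (ω : ℝ) :
    ∑' n, (if w n = ω then x n else 0) = ∑' n, (if v n = ω then y n else 0) := by
  have h1 := mean_value x (fun n => w n - ω) hx
  have h2 := mean_value y (fun n => v n - ω) hy
  have h3 : ∀ (z : ℕ → ℂ) (u : ℕ → ℝ) (t : ℝ), ∑' n, z n * cexp (((u n - ω : ℝ) : ℂ) * t * I) =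
      cexp (-(ω * t * I)) * ∑' n, z n * cexp (u n * t * I) := by
    intro z u t
    rw [← tsum_mul_left]
    apply tsum_congr
    intro n
    rw [show ((u n - ω : ℝ) : ℂ) * t * I = -(ω * t * I) + u n * t * I by push_cast; ring, Complex.exp_add]
    ring
  simp only [h3, h, sub_eq_zero] at h1 h2
  exact tendsto_nhds_unique h1 h2

end Pool.Agent.H26.WFa
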