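import Pool.Agent.H26.WFa.En0
import Pool.Agent.H26.WFa.Mea

/-!
# WFa/Ze0: degree 0: the square of Q is an integer q and a n = 0 unless n divides q

PROOF. `decay0` at `s = t I`: `∑ a n n ^ (-it) = ε Q ^ (1 - 2it) ∑ conj (a n) n ^ (-1 + it)`
(`LSeries` terms, the term `n = 0` is zero). `exp_sum_unique` with `x n = a n`, `w n = -log n`
(`n ≥ 1`), `y n = ε Q conj (a n) / n`, `v n = log n - 2 log Q` (`n ≥ 1`); put `x 0 = y 0 = 0`.
`ω = 0`: `1 = a 1 = ∑_(log n = 2 log Q) y n`, so some `n =: q ≥ 1` has `log n = 2 log Q`,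
`Q ^ 2 = q`. `ω = -log k`: `a k = ∑_(log n = 2 log Q - log k) y n = 0` unless `n k = q` for some
`n`.
-/

set_option autoImplicit false

namespace Pool.Agent.H26.WFa

open Complex Pool.Agent.H11.Selberg

theorem zer0 {a : ℕ → ℂ} {F G : ℂ → ℂ} {m : ℕ} {Q : ℝ} {lam : Fin 0 → ℝ}
    {mu : Fin 0 → ℂ} {ε : ℂ} (h : Dat a F G m Q lam mu ε) :
    ∃ q : ℕ, 1 ≤ q ∧ Q ^ 2 = q ∧ ∀ k : ℕ, 1 ≤ k → ¬ k ∣ q → a k = 0 := by
  obtain ⟨H, hd, hHF, hfe, hL⟩ := decay0 h
  have hQ : (Q : ℂ) ≠ 0 := by exact_mod_cast h.Qpos.ne'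
  obtain ⟨x, hx⟩ : ∃ x : ℕ → ℂ, x = fun n => if n = 0 then 0 else a n := ⟨_, rfl⟩
  obtain ⟨y, hy⟩ : ∃ y : ℕ → ℂ, y = fun n => if n = 0 then 0 else
    ε * Q * (starRingEnd ℂ) (a n) / n := ⟨_, rfl⟩
  have hterm : ∀ (s : ℂ) (n : ℕ), n ≠ 0 → LSeries.term a s n = a n * cexp (-(s * Real.log n)) := by
    intro s n hn
    have hn0 : (n : ℂ) ≠ 0 := by exact_mod_cast hn
    rw [LSeries.term_of_ne_zero hn, div_eq_mul_inv, Complex.cpow_def_of_ne_zero hn0, ← Complex.exp_neg,
      ← Complex.natCast_log]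
    congr 2
    ring
  have hxs : Summable (fun n => ‖x n‖) := by
    refine (hL 0).1.norm.congr (fun n => ?_)
    rcases eq_or_ne n 0 with rfl | hn
    · simp [hx]
    · rw [hterm 0 n hn, hx]
      simp [hn]
  have hys : Summable (fun n => ‖y n‖) := by
    have h1 := ((hL 1).1.norm).mul_left Q
    refine h1.congr (fun n => ?_)
    rcases eq_or_ne n 0 with rfl | hn
    · simp [hy]
    · rw [LSeries.term_of_ne_zero hn, hy]
      simp only [if_neg hn, norm_div, norm_mul, h.eps, Complex.norm_conj, Complex.norm_real,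
        Real.norm_of_nonneg h.Qpos.le, one_mul, Complex.cpow_one]
      ring
  have key : ∀ t : ℝ, ∑' n : ℕ, x n * cexp (((-Real.log n : ℝ) : ℂ) * t * I) =
      ∑' n : ℕ, y n * cexp (((Real.log n - 2 * Real.log Q : ℝ) : ℂ) * t * I) := by
    intro t
    have e1 : H (t * I) = ∑' n : ℕ, x n * cexp (((-Real.log n : ℝ) : ℂ) * t * I) := by
      rw [(hL (t * I)).2, LSeries]
      apply tsum_congr
      intro n
      rcases eq_or_ne n 0 with rfl | hn
      · simp [hx]
      · rw [hterm _ n hn, hx]
        simp only [if_neg hn]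
        congr 2
        push_cast
        ring
    have e2 : H (t * I) = ∑' n : ℕ, y n * cexp (((Real.log n - 2 * Real.log Q : ℝ) : ℂ) * t * I) := by
      have e3 : (1 : ℂ) - (starRingEnd ℂ) (t * I) = 1 + t * I := by
        rw [map_mul, Complex.conj_ofReal, Complex.conj_I]
        ring
      rw [hfe, e3, (hL (1 + t * I)).2, LSeries, Complex.conj_tsum, ← tsum_mul_left]
      apply tsum_congr
      intro n
      rcases eq_or_ne n 0 with rfl | hn
      · simp [hy]
      · have hn0 : (n : ℂ) ≠ 0 := by exact_mod_cast hn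
        have hnp : (0 : ℝ) < n := by exact_mod_cast Nat.pos_of_ne_zero hn
        have hne : ((Real.log n : ℝ) : ℂ) = Complex.log n := by
          rw [Complex.natCast_log]
        rw [hterm _ n hn, hy]
        simp only [if_neg hn]
        rw [map_mul, ← Complex.exp_conj]
        have e4 : (starRingEnd ℂ) (-((1 + (t : ℂ) * I) * (Real.log n : ℂ))) =
            -(Real.log n : ℂ) + Real.log n * t * I := by
          simp only [map_neg, map_mul, map_add, map_one, Complex.conj_ofReal, Complex.conj_I]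
          ring
        have e5 : (Q : ℂ) ^ (1 - 2 * ((t : ℂ) * I)) = Q * cexp (-(2 * Real.log Q) * t * I) := by
          rw [Complex.cpow_sub _ _ hQ, Complex.cpow_one, div_eq_mul_inv, ← Complex.cpow_neg,
            Complex.cpow_def_of_ne_zero hQ, ← Complex.ofReal_log h.Qpos.le]
          congr 2
          ring
        have e6 : cexp (-(Real.log n : ℂ)) = ((n : ℂ))⁻¹ := by
          rw [Complex.exp_neg, hne, Complex.exp_log hn0]
        rw [e4, e5, Complex.exp_add, e6]
        have e7 : cexp (((Real.log n - 2 * Real.log Q : ℝ) : ℂ) * t * I) =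
            cexp (-(2 * Real.log Q) * t * I) * cexp ((Real.log n : ℂ) * t * I) := by
          rw [← Complex.exp_add]
          congr 1
          push_cast
          ring
        rw [e7]
        ring
    rw [← e1, ← e2]
  have huniq := exp_sum_unique x y (fun n : ℕ => -Real.log n) (fun n : ℕ => Real.log n - 2 * Real.log Q)
    hxs hys key
  have hlog : ∀ n k : ℕ, n ≠ 0 → k ≠ 0 → Real.log n = Real.log k → n = k := by
    intro n k hn hk hnk
    have h1 : (0 : ℝ) < n := by exact_mod_cast Nat.pos_of_ne_zero hn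
    have h2 : (0 : ℝ) < k := by exact_mod_cast Nat.pos_of_ne_zero hk
    have := Real.log_injOn_pos h1 h2 hnk
    exact_mod_cast this
  have hleft : ∀ k : ℕ, k ≠ 0 →
      ∑' n : ℕ, (if -Real.log n = -Real.log k then x n else 0) = a k := by
    intro k hk
    rw [tsum_eq_single k]
    · simp [hx, hk]
    · intro n hn
      rcases eq_or_ne n 0 with rfl | hn0
      · simp [hx]
      · rw [if_neg]
        intro h1
        exact hn (hlog n k hn0 hk (neg_injective h1))
  -- the integer `q`
  have h1 : ∃ q : ℕ, q ≠ 0 ∧ Real.log q = 2 * Real.log Q := by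
    by_contra hc
    have e1 := huniq (-Real.log (1 : ℕ))
    rw [hleft 1 one_ne_zero, h.one] at e1
    have e2 : ∑' n : ℕ, (if Real.log n - 2 * Real.log Q = -Real.log (1 : ℕ) then y n else 0) = 0 := by
      refine (tsum_congr (fun n => ?_)).trans (tsum_zero (α := ℂ) (β := ℕ))
      rcases eq_or_ne n 0 with rfl | hn
      · simp [hy]
      · have hne : ¬ (Real.log n - 2 * Real.log Q = -Real.log (1 : ℕ)) := by
          intro h2
          apply hc
          refine ⟨n, hn, ?_⟩
          simp at h2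
          linarith
        rw [if_neg hne]
    rw [e2] at e1
    exact one_ne_zero e1
  obtain ⟨q, hq0, hq⟩ := h1
  have hqp : (0 : ℝ) < q := by exact_mod_cast Nat.pos_of_ne_zero hq0
  refine ⟨q, Nat.pos_of_ne_zero hq0, ?_, ?_⟩
  · have e1 : Real.log (Q ^ 2) = Real.log q := by
      rw [Real.log_pow, hq]
      push_cast
      ring
    exact Real.log_injOn_pos (by have := h.Qpos; positivity : (0 : ℝ) < Q ^ 2) hqp e1
  · intro k hk hkq
    have hk0 : k ≠ 0 := by omega
    have hkp : (0 : ℝ) < k := by exact_mod_cast hk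
    rw [← hleft k hk0, huniq (-Real.log k)]
    refine (tsum_congr (fun n => ?_)).trans (tsum_zero (α := ℂ) (β := ℕ))
    rcases eq_or_ne n 0 with rfl | hn
    · simp [hy]
    · have hne : ¬ (Real.log n - 2 * Real.log Q = -Real.log k) := by
        intro h2
        apply hkq
        have hnp : (0 : ℝ) < n := by exact_mod_cast Nat.pos_of_ne_zero hn
        have e1 : Real.log ((k * n : ℕ) : ℝ) = Real.log q := by
          push_cast
          rw [Real.log_mul hkp.ne' hnp.ne', hq]
          linarith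
        have e2 := hlog (k * n) q (mul_ne_zero hk0 hn) hq0 e1
        exact ⟨n, e2.symm⟩
      rw [if_neg hne]

end Pool.Agent.H26.WFa
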